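import Mathlib

/-! Completeness of the space of convex bodies and the Baire property of the space of
convex bodies with the origin in the interior. -/

set_option autoImplicit false

open Metric Set Topology Filter

namespace Pool.Agent.Lib.MP_0b6b0e_gt

variable {E : Type*} [NormedAddCommGroup E] [NormedSpace ℝ E]

/-- The inclusion of convex bodies into nonempty compact sets. -/
def toNC (K : ConvexBody E) : TopologicalSpace.NonemptyCompacts E :=
  ⟨⟨(K : Set E), K.isCompact⟩, K.nonempty⟩

lemma coe_toNC (K : ConvexBody E) : ((toNC K : TopologicalSpace.NonemptyCompacts E) : Set E) = K :=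
  rfl

lemma isometry_toNC : Isometry (toNC : ConvexBody E → TopologicalSpace.NonemptyCompacts E) := by
  refine Isometry.of_dist_eq fun K L => ?_
  rw [NonemptyCompacts.dist_eq]
  rfl

lemma range_toNC : range (toNC : ConvexBody E → TopologicalSpace.NonemptyCompacts E)
    = {K : TopologicalSpace.NonemptyCompacts E | Convex ℝ (K : Set E)} := by
  ext K
  constructor
  · rintro ⟨L, rfl⟩
    exact L.convex
  · intro hK
    exact ⟨⟨(K : Set E), hK, K.isCompact, K.nonempty⟩, rfl⟩

omit [NormedSpace ℝ E] in
lemma nc_ne_top (K L : TopologicalSpace.NonemptyCompacts E) :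
    hausdorffEDist (K : Set E) L ≠ ⊤ :=
  hausdorffEDist_ne_top_of_nonempty_of_bounded K.nonempty L.nonempty
    K.isCompact.isBounded L.isCompact.isBounded

lemma isClosed_convex : IsClosed {K : TopologicalSpace.NonemptyCompacts E | Convex ℝ (K : Set E)} := by
  rw [← isSeqClosed_iff_isClosed]
  intro u K hu hK
  show Convex ℝ (K : Set E)
  intro x hx y hy a b ha hb hab
  have hcl : IsClosed (K : Set E) := K.isCompact.isClosed
  rw [hcl.mem_iff_infDist_zero K.nonempty]
  refine le_antisymm (le_of_forall_pos_le_add fun ε hε => ?_) infDist_nonneg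
  rw [zero_add]
  have h1 : ∀ᶠ n in atTop, dist (u n) K < ε / 2 := by
    have := (tendsto_iff_dist_tendsto_zero.1 hK)
    exact this.eventually (gt_mem_nhds (half_pos hε))
  obtain ⟨n, hn⟩ := h1.exists
  rw [NonemptyCompacts.dist_eq] at hn
  have hn' : hausdorffDist (K : Set E) (u n) < ε / 2 := by rwa [hausdorffDist_comm]
  obtain ⟨x', hx', hxx⟩ := exists_dist_lt_of_hausdorffDist_lt hx hn' (nc_ne_top K (u n))
  obtain ⟨y', hy', hyy⟩ := exists_dist_lt_of_hausdorffDist_lt hy hn' (nc_ne_top K (u n))
  have hz' : a • x' + b • y' ∈ ((u n : TopologicalSpace.NonemptyCompacts E) : Set E) :=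
    hu n hx' hy' ha hb hab
  obtain ⟨z, hz, hzz⟩ := exists_dist_lt_of_hausdorffDist_lt hz' hn (nc_ne_top (u n) K)
  have h2 : dist (a • x + b • y) (a • x' + b • y') ≤ ε / 2 := by
    calc dist (a • x + b • y) (a • x' + b • y')
        ≤ dist (a • x) (a • x') + dist (b • y) (b • y') := dist_add_add_le _ _ _ _
      _ = a * dist x x' + b * dist y y' := by
          rw [dist_smul₀, dist_smul₀, Real.norm_of_nonneg ha, Real.norm_of_nonneg hb]
      _ ≤ a * (ε / 2) + b * (ε / 2) := by gcongr
      _ = ε / 2 := by rw [← add_mul, hab, one_mul]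
  calc infDist (a • x + b • y) (K : Set E) ≤ dist (a • x + b • y) z := infDist_le_dist_of_mem hz
    _ ≤ dist (a • x + b • y) (a • x' + b • y') + dist (a • x' + b • y') z := dist_triangle _ _ _
    _ ≤ ε / 2 + ε / 2 := by linarith
    _ = ε := by ring

instance completeSpace_convexBody [CompleteSpace E] : CompleteSpace (ConvexBody E) := by
  rw [completeSpace_iff_isComplete_range (isometry_toNC (E := E)).isUniformInducing, range_toNC]
  exact isClosed_convex.isComplete

/-- Cancellation: if `K + ball r ⊆ K' + ball s` type statement, in the form we need. -/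
lemma ball_subset_of_hausdorffDist_lt [FiniteDimensional ℝ E] {K L : ConvexBody E} {r s : ℝ}
    (hs : 0 ≤ s) (hK : closedBall (0 : E) (r + s) ⊆ K) (h : hausdorffDist (K : Set E) L < s) :
    closedBall (0 : E) r ⊆ L := by
  intro a ha
  by_contra haL
  obtain ⟨φ, u, h1, h2⟩ := geometric_hahn_banach_closed_point L.convex L.isClosed haL
  obtain ⟨b, hb, hbmax⟩ := (isCompact_closedBall (0 : E) s).exists_isMaxOn
    ⟨0, by simpa using hs⟩ φ.continuous.continuousOn
  have hab : a + b ∈ (K : Set E) := by
    apply hK
    simp only [mem_closedBall, dist_zero_right] at ha hb ⊢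
    exact (norm_add_le a b).trans (add_le_add ha hb)
  obtain ⟨c, hc, hdc⟩ := exists_dist_lt_of_hausdorffDist_lt hab h ConvexBody.hausdorffEDist_ne_top
  have h3 : φ (a + b - c) ≤ φ b := by
    apply hbmax
    simp only [mem_closedBall, dist_zero_right]
    rw [dist_eq_norm] at hdc
    exact hdc.le
  have h4 := h1 c hc
  rw [map_sub, map_add] at h3
  linarith

lemma isOpen_zero_mem_interior [FiniteDimensional ℝ E] :
    IsOpen {K : ConvexBody E | (0 : E) ∈ interior (K : Set E)} := by
  rw [Metric.isOpen_iff]
  intro K hK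
  have hK' : (0 : E) ∈ interior (K : Set E) := hK
  rw [mem_interior_iff_mem_nhds, Metric.nhds_basis_closedBall.mem_iff] at hK'
  obtain ⟨r, hr, hrK⟩ := hK'
  refine ⟨r / 2, half_pos hr, fun L hL => ?_⟩
  show (0 : E) ∈ interior (L : Set E)
  rw [mem_interior_iff_mem_nhds, Metric.nhds_basis_closedBall.mem_iff]
  refine ⟨r / 2, half_pos hr, ball_subset_of_hausdorffDist_lt (K := K) (s := r / 2)
    (half_pos hr).le ?_ ?_⟩
  · simpa using hrK
  · rw [mem_ball, dist_comm] at hL
    exact hL

/-- The space of convex bodies with the origin in the interior is a Baire space. -/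
lemma baireSpace_bodies [FiniteDimensional ℝ E] :
    BaireSpace {K : ConvexBody E // (0 : E) ∈ interior (K : Set E)} := by
  have : CompleteSpace E := FiniteDimensional.complete ℝ E
  exact (isOpen_zero_mem_interior (E := E)).baireSpace

/-- A set of bodies which is a neighbourhood of some body is not meagre. -/
lemma not_isMeagre_of_nhds [FiniteDimensional ℝ E]
    {s : Set {K : ConvexBody E // (0 : E) ∈ interior (K : Set E)}}
    (K₀ : {K : ConvexBody E // (0 : E) ∈ interior (K : Set E)}) (h : s ∈ 𝓝 K₀) :
    ¬ IsMeagre s := by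
  have := baireSpace_bodies (E := E)
  obtain ⟨t, hts, ht, hK⟩ := _root_.mem_nhds_iff.1 h
  intro hm
  exact not_isMeagre_of_isOpen ht ⟨K₀, hK⟩ (hm.mono hts)

end Pool.Agent.Lib.MP_0b6b0e_gt
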