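import Mathlib

/-! Gauge functions of nearby convex bodies are close. -/

set_option autoImplicit false

open Metric Set Topology Filter
open scoped Pointwise

namespace Pool.Agent.Lib.MP_0b6b0e_gt

variable {E : Type*} [NormedAddCommGroup E] [NormedSpace ℝ E]

lemma body_nhds {K : ConvexBody E} (h : (0 : E) ∈ interior (K : Set E)) : (K : Set E) ∈ 𝓝 (0 : E) :=
  mem_interior_iff_mem_nhds.1 h

lemma body_gauge_le_one {K : ConvexBody E} (h : (0 : E) ∈ interior (K : Set E)) (v : E) :
    gauge (K : Set E) v ≤ 1 ↔ v ∈ (K : Set E) := by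
  rw [gauge_le_one_iff_mem_closure K.convex (body_nhds h), K.isClosed.closure_eq]

lemma body_gauge_pos {K : ConvexBody E} (h : (0 : E) ∈ interior (K : Set E)) {v : E} (hv : v ≠ 0) :
    0 < gauge (K : Set E) v := by
  rw [gauge_pos (absorbent_nhds_zero (body_nhds h)) ((NormedSpace.isVonNBounded_iff ℝ).2 K.isBounded)]
  exact hv

lemma gauge_le_mul {K : ConvexBody E} (h : (0 : E) ∈ interior (K : Set E)) {B : Set E} {c : ℝ}
    (hB : ∀ x ∈ (K : Set E), gauge B x ≤ c) (v : E) : gauge B v ≤ c * gauge (K : Set E) v := by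
  rcases eq_or_ne v 0 with rfl | hv
  · simp
  · have hp := body_gauge_pos h hv
    have hmem : (gauge (K : Set E) v)⁻¹ • v ∈ (K : Set E) := by
      rw [← body_gauge_le_one h, gauge_smul_of_nonneg (inv_nonneg.2 hp.le), smul_eq_mul,
        inv_mul_cancel₀ hp.ne']
    have := hB _ hmem
    rw [gauge_smul_of_nonneg (inv_nonneg.2 hp.le), smul_eq_mul, inv_mul_le_iff₀ hp] at this
    linarith [this]

lemma gauge_le_norm_div {K : ConvexBody E} {r : ℝ} (hr : 0 < r)
    (hK : closedBall (0 : E) r ⊆ K) (v : E) : gauge (K : Set E) v ≤ ‖v‖ / r := by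
  rw [← gauge_closedBall hr.le v]
  refine gauge_mono ?_ hK v
  exact absorbent_nhds_zero (closedBall_mem_nhds 0 hr)

/-- closeness of gauges -/
lemma gauge_close [FiniteDimensional ℝ E] {K₀ K : ConvexBody E} {r ε : ℝ} (hr : 0 < r)
    (hε : 0 < ε) (hε1 : ε < 1)
    (h0 : closedBall (0 : E) r ⊆ K₀) (hK : (0 : E) ∈ interior (K : Set E))
    (hd : dist K K₀ < ε * r) (v : E) :
    gauge (K₀ : Set E) v ≤ (1 + ε) * gauge (K : Set E) v ∧
      (1 - ε) * gauge (K : Set E) v ≤ gauge (K₀ : Set E) v := by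
  have hd1 : hausdorffDist (K : Set E) K₀ < ε * r := hd
  have hd2 : hausdorffDist (K₀ : Set E) K < ε * r := by rwa [hausdorffDist_comm]
  have hK₀ : (0 : E) ∈ interior (K₀ : Set E) :=
    mem_interior_iff_mem_nhds.2 (mem_of_superset (closedBall_mem_nhds 0 hr) h0)
  constructor
  · refine gauge_le_mul hK (fun x hx => ?_) v
    obtain ⟨y, hy, hxy⟩ := exists_dist_lt_of_hausdorffDist_lt hx hd1 ConvexBody.hausdorffEDist_ne_top
    have h1 : gauge (K₀ : Set E) x ≤ gauge (K₀ : Set E) y + gauge (K₀ : Set E) (x - y) := by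
      have := gauge_add_le K₀.convex (absorbent_nhds_zero (body_nhds hK₀)) y (x - y)
      simpa using this
    have h2 := (body_gauge_le_one hK₀ y).2 hy
    have h3 := gauge_le_norm_div hr h0 (x - y)
    have h4 : ‖x - y‖ / r ≤ ε := by
      rw [div_le_iff₀ hr]
      rw [dist_eq_norm] at hxy
      exact hxy.le
    linarith
  · obtain ⟨x₁, hx₁, hmax⟩ := K₀.isCompact.exists_isMaxOn K₀.nonempty
      (continuous_gauge K.convex (body_nhds hK)).continuousOn
    set M := gauge (K : Set E) x₁ with hM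
    have hMle : ∀ x ∈ (K₀ : Set E), gauge (K : Set E) x ≤ M := fun x hx => hmax hx
    have hMsm : ∀ x ∈ (K₀ : Set E), gauge (K : Set E) x ≤ 1 + ε * M := by
      intro x hx
      obtain ⟨y, hy, hxy⟩ := exists_dist_lt_of_hausdorffDist_lt hx hd2
        ConvexBody.hausdorffEDist_ne_top
      have h1 : gauge (K : Set E) x ≤ gauge (K : Set E) y + gauge (K : Set E) (x - y) := by
        have := gauge_add_le K.convex (absorbent_nhds_zero (body_nhds hK)) y (x - y)
        simpa using this
      have h2 := (body_gauge_le_one hK y).2 hy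
      have h5 : ε⁻¹ • (x - y) ∈ (K₀ : Set E) := by
        apply h0
        rw [mem_closedBall, dist_zero_right, norm_smul, Real.norm_of_nonneg (inv_nonneg.2 hε.le),
          inv_mul_le_iff₀ hε]
        rw [dist_eq_norm] at hxy
        exact hxy.le
      have h6 := hMle _ h5
      rw [gauge_smul_of_nonneg (inv_nonneg.2 hε.le), smul_eq_mul, inv_mul_le_iff₀ hε] at h6
      linarith
    have h7 : (1 - ε) * M ≤ 1 := by
      have := hMsm x₁ hx₁
      rw [← hM] at this
      linarith
    have h8 := gauge_le_mul hK₀ hMle v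
    have h9 : 0 ≤ gauge (K₀ : Set E) v := gauge_nonneg v
    calc (1 - ε) * gauge (K : Set E) v ≤ (1 - ε) * (M * gauge (K₀ : Set E) v) := by
          apply mul_le_mul_of_nonneg_left h8; linarith
      _ = ((1 - ε) * M) * gauge (K₀ : Set E) v := by ring
      _ ≤ 1 * gauge (K₀ : Set E) v := by gcongr
      _ = _ := one_mul _

/-- The gauge of the unit sublevel set of a positively homogeneous function. -/
lemma gauge_sublevel {k : E → ℝ} (hnn : ∀ v, 0 ≤ k v)
    (hhom : ∀ (t : ℝ) (v : E), 0 < t → k (t • v) = t * k v) (v : E) :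
    gauge {w | k w ≤ 1} v = k v := by
  have hset : {r : ℝ | 0 < r ∧ v ∈ r • {w | k w ≤ 1}} = {r : ℝ | 0 < r ∧ k v ≤ r} := by
    ext r
    constructor
    · rintro ⟨hr, w, hw, rfl⟩
      refine ⟨hr, ?_⟩
      have hw' : k w ≤ 1 := hw
      show k (r • w) ≤ r
      rw [hhom r w hr]
      nlinarith
    · rintro ⟨hr, hv⟩
      refine ⟨hr, r⁻¹ • v, ?_, ?_⟩
      · show k (r⁻¹ • v) ≤ 1
        rw [hhom _ _ (inv_pos.2 hr), inv_mul_le_iff₀ hr]
        linarith
      · show r • (r⁻¹ • v) = v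
        rw [smul_smul, mul_inv_cancel₀ hr.ne', one_smul]
  rw [gauge_def]
  simp only [mem_Ioi]
  rw [hset]
  rcases (hnn v).eq_or_lt with h0 | hpos
  · rw [← h0]
    have : {r : ℝ | 0 < r ∧ 0 ≤ r} = Ioi 0 := by
      ext r; constructor
      · rintro ⟨h, _⟩; exact h
      · intro h; exact ⟨h, le_of_lt h⟩
    rw [this, csInf_Ioi]
  · have : {r : ℝ | 0 < r ∧ k v ≤ r} = Ici (k v) := by
      ext r; constructor
      · rintro ⟨_, h⟩; exact h
      · intro h; exact ⟨lt_of_lt_of_le hpos h, h⟩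
    rw [this, csInf_Ici]

end Pool.Agent.Lib.MP_0b6b0e_gt
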