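import Mathlib

/-! Local support lines and the passage from local to global convexity. -/

set_option autoImplicit false

open Metric Set Topology Filter

namespace Pool.Agent.Lib.MP_0b6b0e_gt

/-- `F` is continuous at `x` and has a local support line at `x`. -/
def LocSupp (F : ℝ → ℝ) (x : ℝ) : Prop :=
  ContinuousAt F x ∧ ∃ s : ℝ, ∀ᶠ y in 𝓝 x, F x + s * (y - x) ≤ F y

lemma LocSupp.congr {F H : ℝ → ℝ} {x : ℝ} (hH : LocSupp H x) (h : F =ᶠ[𝓝 x] H) : LocSupp F x := by
  obtain ⟨hc, s, hs⟩ := hH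
  refine ⟨hc.congr h.symm, s, ?_⟩
  filter_upwards [hs, h] with y hy hFy
  rw [h.eq_of_nhds, hFy]
  exact hy

/-- maximum principle for functions with local support lines. -/
lemma le_max_of_locSupp {h : ℝ → ℝ} {a b : ℝ} (hc : ContinuousOn h (Icc a b))
    (hs : ∀ t ∈ Ioo a b, LocSupp h t) {t : ℝ} (ht : t ∈ Icc a b) : h t ≤ max (h a) (h b) := by
  by_contra hlt
  push Not at hlt
  obtain ⟨t₀, ht₀, hmax⟩ := isCompact_Icc.exists_isMaxOn ⟨t, ht⟩ hc
  -- the set of maximum points
  set M := h t₀ with hM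
  have hMt : max (h a) (h b) < M := lt_of_lt_of_le hlt (hmax ht)
  have hclosed : IsClosed (Icc a b ∩ h ⁻¹' {M}) :=
    hc.preimage_isClosed_of_isClosed isClosed_Icc isClosed_singleton
  have hcomp : IsCompact (Icc a b ∩ h ⁻¹' {M}) :=
    isCompact_Icc.of_isClosed_subset hclosed inter_subset_left
  obtain ⟨u, ⟨hu, hu'⟩, humin⟩ := hcomp.exists_isLeast ⟨t₀, ht₀, rfl⟩
  have huM : h u = M := hu'
  have hua : a < u := by
    rcases hu.1.eq_or_lt with h1 | h1
    · exfalso; rw [← h1] at huM; have := le_max_left (h a) (h b); linarith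
    · exact h1
  have hub : u < b := by
    rcases hu.2.eq_or_lt with h1 | h1
    · exfalso; rw [h1] at huM; have := le_max_right (h a) (h b); linarith
    · exact h1
  obtain ⟨-, s, hsupp⟩ := hs u ⟨hua, hub⟩
  have hnear : ∀ᶠ y in 𝓝 u, y ∈ Ioo a b := Ioo_mem_nhds hua hub
  have hev := hsupp.and hnear
  rw [Metric.eventually_nhds_iff] at hev
  obtain ⟨ε, hε, hball⟩ := hev
  have hε2 : |ε / 2| < ε := by rw [abs_of_pos (half_pos hε)]; linarith
  have hr := hball (y := u + ε / 2) (by
    rw [Real.dist_eq, show u + ε / 2 - u = ε / 2 by ring]; exact hε2)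
  have hl := hball (y := u - ε / 2) (by
    rw [Real.dist_eq, show u - ε / 2 - u = -(ε / 2) by ring, abs_neg]; exact hε2)
  have hr2 : h (u + ε / 2) ≤ M := hmax ⟨hr.2.1.le, hr.2.2.le⟩
  have hl2 : h (u - ε / 2) ≤ M := hmax ⟨hl.2.1.le, hl.2.2.le⟩
  have hr1 := hr.1
  have hl1 := hl.1
  rw [huM] at hr1 hl1
  have hs0 : s = 0 := by
    have e1 : s * (ε / 2) ≤ 0 := by
      have : s * (u + ε / 2 - u) = s * (ε / 2) := by ring
      linarith
    have e2 : 0 ≤ s * (ε / 2) := by
      have : s * (u - ε / 2 - u) = - (s * (ε / 2)) := by ring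
      linarith
    have e3 : s * (ε / 2) = 0 := le_antisymm e1 e2
    rcases mul_eq_zero.1 e3 with h1 | h1
    · exact h1
    · linarith
  rw [hs0, zero_mul, add_zero] at hl1
  have heq : h (u - ε / 2) = M := le_antisymm hl2 hl1
  have := humin ⟨⟨hl.2.1.le, hl.2.2.le⟩, heq⟩
  linarith

/-- Gluing two functions at a point where they agree and share a local support slope. -/
lemma locSupp_glue_eq {u v : ℝ → ℝ} {a s : ℝ} (huv : u a = v a) (hu : ContinuousAt u a)
    (hv : ContinuousAt v a) (hsu : ∀ᶠ y in 𝓝 a, u a + s * (y - a) ≤ u y)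
    (hsv : ∀ᶠ y in 𝓝 a, v a + s * (y - a) ≤ v y) :
    LocSupp (fun x => if x ≤ a then u x else v x) a := by
  constructor
  · have h1 : ContinuousWithinAt (fun x => if x ≤ a then u x else v x) (Iic a) a := by
      refine (hu.continuousWithinAt (s := Iic a)).congr (fun y hy => ?_) ?_
      · simp only [mem_Iic] at hy; simp [hy]
      · simp
    have h2 : ContinuousWithinAt (fun x => if x ≤ a then u x else v x) (Ici a) a := by
      refine (hv.continuousWithinAt (s := Ici a)).congr (fun y hy => ?_) ?_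
      · simp only [mem_Ici] at hy
        rcases hy.eq_or_lt with rfl | h
        · simp [huv]
        · simp [not_le.2 h]
      · simp [huv]
    exact continuousAt_iff_continuous_left_right.2 ⟨h1, h2⟩
  · refine ⟨s, ?_⟩
    filter_upwards [hsu, hsv] with y h1 h2
    simp only [le_refl, if_true]
    split_ifs with hy
    · exact h1
    · rw [huv]; exact h2

lemma locSupp_glue_lt {u v : ℝ → ℝ} {a x : ℝ} (hx : x < a) (hu : LocSupp u x) :
    LocSupp (fun x => if x ≤ a then u x else v x) x := by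
  refine hu.congr ?_
  filter_upwards [Iio_mem_nhds hx] with y hy
  simp [le_of_lt (show y < a from hy)]

lemma locSupp_glue_gt {u v : ℝ → ℝ} {a x : ℝ} (hx : a < x) (hv : LocSupp v x) :
    LocSupp (fun x => if x ≤ a then u x else v x) x := by
  refine hv.congr ?_
  filter_upwards [Ioi_mem_nhds hx] with y hy
  simp [not_le.2 (show a < y from hy)]

/-- A convex function on the line has a global support line at every point. -/
lemma exists_support {f : ℝ → ℝ} (hf : ConvexOn ℝ univ f) (x : ℝ) :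
    ∃ a : ℝ, ∀ y, f x + a * (y - x) ≤ f y := by
  set S : Set ℝ := {r | ∃ y, y < x ∧ r = (f x - f y) / (x - y)} with hS
  have hne : S.Nonempty := ⟨_, x - 1, by linarith, rfl⟩
  have hub : ∀ z, x < z → ∀ r ∈ S, r ≤ (f z - f x) / (z - x) := by
    rintro z hz r ⟨y, hy, rfl⟩
    exact hf.slope_mono_adjacent (mem_univ y) (mem_univ z) hy hz
  have hbdd : BddAbove S := ⟨_, hub (x + 1) (by linarith)⟩
  refine ⟨sSup S, fun y => ?_⟩
  rcases lt_trichotomy y x with h | h | h
  · have h1 : (f x - f y) / (x - y) ≤ sSup S := le_csSup hbdd ⟨y, h, rfl⟩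
    rw [div_le_iff₀ (by linarith)] at h1
    nlinarith
  · subst h; simp
  · have h1 : sSup S ≤ (f y - f x) / (y - x) := csSup_le hne (hub y h)
    rw [le_div_iff₀ (by linarith)] at h1
    linarith

lemma locSupp_of_convexOn {f : ℝ → ℝ} (hf : ConvexOn ℝ univ f) (hc : Continuous f) (x : ℝ) :
    LocSupp f x := by
  obtain ⟨a, ha⟩ := exists_support hf x
  exact ⟨hc.continuousAt, a, Eventually.of_forall ha⟩

lemma locSupp_affine (c m x : ℝ) : LocSupp (fun y => c + m * y) x := by
  refine ⟨by fun_prop, m, Eventually.of_forall fun y => ?_⟩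
  show c + m * x + m * (y - x) ≤ c + m * y
  linarith

end Pool.Agent.Lib.MP_0b6b0e_gt
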