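import Mathlib
import Pool.Agent.Lib.MP_0b6b0e_gt.LocSupp

/-! The key local inequality for `1 / (1/f + 1/g - 1/G)`. -/

set_option autoImplicit false

open Metric Set Topology Filter

namespace Pool.Agent.Lib.MP_0b6b0e_gt

lemma key_local' {p q Q α β μ σ : ℝ} (hP : 0 < p + q - Q)
    (hσ : (p + q - Q) * σ = p * α + q * β - Q * μ)
    (hT : p * q * (α - β) ^ 2 < p * Q * (α - μ) ^ 2 + q * Q * (β - μ) ^ 2) :
    ∀ᶠ t in 𝓝 (0 : ℝ), (1 + σ * t) * (p / (1 + α * t) + q / (1 + β * t) - Q / (1 + μ * t))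
      ≤ p + q - Q := by
  set T : ℝ → ℝ := fun t => p * α * (σ - α) / (1 + α * t) + q * β * (σ - β) / (1 + β * t)
    - Q * μ * (σ - μ) / (1 + μ * t) with hTdef
  have hT0 : 0 < T 0 := by
    have h1 : (p + q - Q) * T 0
        = p * Q * (α - μ) ^ 2 + q * Q * (β - μ) ^ 2 - p * q * (α - β) ^ 2 := by
      simp only [hTdef, mul_zero, add_zero, div_one]
      have : (p + q - Q) * (p * α * (σ - α) + q * β * (σ - β) - Q * μ * (σ - μ))
        = ((p + q - Q) * σ) * (p * α + q * β - Q * μ)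
          - (p + q - Q) * (p * α ^ 2 + q * β ^ 2 - Q * μ ^ 2) := by ring
      rw [this, hσ]
      ring
    by_contra hcon
    push Not at hcon
    have : (p + q - Q) * T 0 ≤ 0 := mul_nonpos_of_nonneg_of_nonpos hP.le hcon
    linarith
  have hTc : ContinuousAt T 0 := by
    have h1 : ContinuousAt (fun t : ℝ => 1 + α * t) 0 := by fun_prop
    have h2 : ContinuousAt (fun t : ℝ => 1 + β * t) 0 := by fun_prop
    have h3 : ContinuousAt (fun t : ℝ => 1 + μ * t) 0 := by fun_prop
    exact ((continuousAt_const.div h1 (by simp)).add (continuousAt_const.div h2 (by simp))).sub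
      (continuousAt_const.div h3 (by simp))
  have e1 : ∀ᶠ t in 𝓝 (0 : ℝ), 0 < T t := hTc.eventually (lt_mem_nhds hT0)
  have e2 : ∀ c : ℝ, ∀ᶠ t in 𝓝 (0 : ℝ), 0 < 1 + c * t := by
    intro c
    have : ContinuousAt (fun t : ℝ => 1 + c * t) 0 := by fun_prop
    exact this.eventually (lt_mem_nhds (by simp))
  filter_upwards [e1, e2 α, e2 β, e2 μ] with t ht hα hβ hμ
  have hid : p + q - Q - (1 + σ * t) * (p / (1 + α * t) + q / (1 + β * t) - Q / (1 + μ * t))
      = t ^ 2 * T t - t * ((p + q - Q) * σ - (p * α + q * β - Q * μ)) := by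
    simp only [hTdef, div_eq_mul_inv]
    have hα' := inv_mul_cancel₀ hα.ne'
    have hβ' := inv_mul_cancel₀ hβ.ne'
    have hμ' := inv_mul_cancel₀ hμ.ne'
    linear_combination (-p * (1 + t * (σ - α))) * hα' + (-q * (1 + t * (σ - β))) * hβ'
      + (Q * (1 + t * (σ - μ))) * hμ'
  rw [hσ, sub_self, mul_zero, sub_zero] at hid
  have : 0 ≤ t ^ 2 * T t := mul_nonneg (sq_nonneg t) ht.le
  linarith

/-- The sufficient condition used in the applications. -/
lemma cond_of {p q Q α β μ : ℝ} (hp : 0 < p) (hq : 0 < q) (hQ : q ≤ Q) (h1 : β ≠ μ)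
    (h2 : 0 ≤ (β - μ) * (2 * α - μ - β)) :
    p * q * (α - β) ^ 2 < p * Q * (α - μ) ^ 2 + q * Q * (β - μ) ^ 2 := by
  have hQ0 : 0 < Q := lt_of_lt_of_le hq hQ
  have e1 : p * q * (α - μ) ^ 2 ≤ p * Q * (α - μ) ^ 2 := by gcongr
  have e2 : 0 < q * Q * (β - μ) ^ 2 := by
    have : 0 < (β - μ) ^ 2 := by
      have : β - μ ≠ 0 := sub_ne_zero.2 h1
      positivity
    positivity
  have e3 : 0 ≤ p * q * ((β - μ) * (2 * α - μ - β)) := by positivity
  nlinarith

/-- Local support line of `1 / (1/f + 1/g - 1/G)` with explicit slope. -/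
lemma key_local {f g G : ℝ → ℝ} {x a b m : ℝ} (hfc : ContinuousAt f x) (hgc : ContinuousAt g x)
    (hf0 : 0 < f x) (hg0 : 0 < g x) (hG0 : 0 < G x)
    (hfa : ∀ᶠ y in 𝓝 x, f x + a * (y - x) ≤ f y) (hgb : ∀ᶠ y in 𝓝 x, g x + b * (y - x) ≤ g y)
    (hG : ∀ y, G y = G x + m * (y - x))
    (hP : 0 < 1 / f x + 1 / g x - 1 / G x)
    (hT : 1 / f x * (1 / g x) * (a / f x - b / g x) ^ 2 <
      1 / f x * (1 / G x) * (a / f x - m / G x) ^ 2 +
        1 / g x * (1 / G x) * (b / g x - m / G x) ^ 2) :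
    ∀ᶠ y in 𝓝 x, 1 / (1 / f x + 1 / g x - 1 / G x) +
      (1 / (1 / f x + 1 / g x - 1 / G x)) ^ 2 *
        (a / f x ^ 2 + b / g x ^ 2 - m / G x ^ 2) * (y - x)
        ≤ 1 / (1 / f y + 1 / g y - 1 / G y) := by
  set p := 1 / f x with hp
  set q := 1 / g x with hq
  set Q := 1 / G x with hQ
  set σ := (p * (a / f x) + q * (b / g x) - Q * (m / G x)) / (p + q - Q) with hσ
  have hσ' : (p + q - Q) * σ = p * (a / f x) + q * (b / g x) - Q * (m / G x) := by
    rw [hσ]; field_simp
  have key := key_local' hP hσ' hT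
  -- transport to `y`
  have hsub : Tendsto (fun y : ℝ => y - x) (𝓝 x) (𝓝 0) := by
    have : ContinuousAt (fun y : ℝ => y - x) x := by fun_prop
    simpa using this.tendsto
  have key2 := hsub.eventually key
  have hGc : ContinuousAt G x := by
    have : G = fun y => G x + m * (y - x) := funext hG
    rw [this]; fun_prop
  have pf : ∀ᶠ y in 𝓝 x, 0 < f x + a * (y - x) := by
    have : ContinuousAt (fun y : ℝ => f x + a * (y - x)) x := by fun_prop
    exact this.eventually (lt_mem_nhds (by simpa using hf0))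
  have pg : ∀ᶠ y in 𝓝 x, 0 < g x + b * (y - x) := by
    have : ContinuousAt (fun y : ℝ => g x + b * (y - x)) x := by fun_prop
    exact this.eventually (lt_mem_nhds (by simpa using hg0))
  have pG : ∀ᶠ y in 𝓝 x, 0 < G y := hGc.eventually (lt_mem_nhds hG0)
  have pσ : ∀ᶠ y in 𝓝 x, 0 < 1 + σ * (y - x) := by
    have : ContinuousAt (fun y : ℝ => 1 + σ * (y - x)) x := by fun_prop
    exact this.eventually (lt_mem_nhds (by simp))
  have pP : ∀ᶠ y in 𝓝 x, 0 < 1 / f y + 1 / g y - 1 / G y := by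
    have : ContinuousAt (fun y : ℝ => 1 / f y + 1 / g y - 1 / G y) x :=
      ((continuousAt_const.div hfc hf0.ne').add (continuousAt_const.div hgc hg0.ne')).sub
        (continuousAt_const.div hGc hG0.ne')
    exact this.eventually (lt_mem_nhds hP)
  filter_upwards [key2, hfa, hgb, pf, pg, pG, pσ, pP] with y hk hfa hgb hpf hpg hpG hpσ hpP
  have e1 : 1 / f y ≤ p / (1 + a / f x * (y - x)) := by
    have : p / (1 + a / f x * (y - x)) = 1 / (f x + a * (y - x)) := by
      rw [hp]; field_simp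
    rw [this]
    exact one_div_le_one_div_of_le hpf hfa
  have e2 : 1 / g y ≤ q / (1 + b / g x * (y - x)) := by
    have : q / (1 + b / g x * (y - x)) = 1 / (g x + b * (y - x)) := by
      rw [hq]; field_simp
    rw [this]
    exact one_div_le_one_div_of_le hpg hgb
  have e3 : 1 / G y = Q / (1 + m / G x * (y - x)) := by
    rw [hG y, hQ]; field_simp
  rw [le_div_iff₀ hpP]
  have e4 : 1 / (p + q - Q) + (1 / (p + q - Q)) ^ 2 * (a / f x ^ 2 + b / g x ^ 2 - m / G x ^ 2)
      * (y - x) = 1 / (p + q - Q) * (1 + σ * (y - x)) := by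
    have h0 : a / f x ^ 2 + b / g x ^ 2 - m / G x ^ 2 = (p + q - Q) * σ := by
      rw [hσ', hp, hq, hQ]; field_simp
    rw [h0]; field_simp
  rw [e4]
  calc 1 / (p + q - Q) * (1 + σ * (y - x)) * (1 / f y + 1 / g y - 1 / G y)
      ≤ 1 / (p + q - Q) * (1 + σ * (y - x)) *
        (p / (1 + a / f x * (y - x)) + q / (1 + b / g x * (y - x))
          - Q / (1 + m / G x * (y - x))) := by
        apply mul_le_mul_of_nonneg_left
        · rw [← e3]; linarith
        · positivity
    _ = 1 / (p + q - Q) * ((1 + σ * (y - x)) *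
        (p / (1 + a / f x * (y - x)) + q / (1 + b / g x * (y - x))
          - Q / (1 + m / G x * (y - x)))) := by ring
    _ ≤ 1 / (p + q - Q) * (p + q - Q) := by
        apply mul_le_mul_of_nonneg_left hk; positivity
    _ = 1 := by field_simp

end Pool.Agent.Lib.MP_0b6b0e_gt
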