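import Mathlib
import Pool.Agent.Lib.MP_0b6b0e_gt.Key

/-! The abstract transition lemma. -/

set_option autoImplicit false

open Metric Set Topology Filter

namespace Pool.Agent.Lib.MP_0b6b0e_gt

lemma quad_locSupp {u1 u2 u3 u4 : ℝ → ℝ} {α γ β : ℝ} (h1 : α < γ) (h2 : γ < β)
    (a1 : ∀ x, x < α → LocSupp u1 x)
    (a2 : LocSupp (fun x => if x ≤ α then u1 x else u2 x) α)
    (a3 : ∀ x, α < x → x < γ → LocSupp u2 x)
    (a4 : LocSupp (fun x => if x ≤ γ then u2 x else u3 x) γ)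
    (a5 : ∀ x, γ < x → x < β → LocSupp u3 x)
    (a6 : LocSupp (fun x => if x ≤ β then u3 x else u4 x) β)
    (a7 : ∀ x, β < x → LocSupp u4 x) (x : ℝ) :
    LocSupp (fun x => if x ≤ α then u1 x else if x ≤ γ then u2 x else
      if x ≤ β then u3 x else u4 x) x := by
  rcases lt_trichotomy x α with h | h | h
  · refine (a1 x h).congr ?_
    filter_upwards [Iio_mem_nhds h] with y hy
    have : y ≤ α := le_of_lt hy
    simp [this]
  · subst h
    refine a2.congr ?_
    filter_upwards [Iio_mem_nhds h1] with y hy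
    have : y ≤ γ := le_of_lt hy
    simp [this]
  rcases lt_trichotomy x γ with h' | h' | h'
  · refine (a3 x h h').congr ?_
    filter_upwards [Ioo_mem_nhds h h'] with y hy
    have e1 : ¬ y ≤ α := not_le.2 hy.1
    have e2 : y ≤ γ := hy.2.le
    simp [e1, e2]
  · subst h'
    refine a4.congr ?_
    filter_upwards [Ioo_mem_nhds h1 h2] with y hy
    have e1 : ¬ y ≤ α := not_le.2 hy.1
    have e2 : y ≤ β := hy.2.le
    simp [e1, e2]
  rcases lt_trichotomy x β with h'' | h'' | h''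
  · refine (a5 x h' h'').congr ?_
    filter_upwards [Ioo_mem_nhds h' h''] with y hy
    have e1 : ¬ y ≤ α := not_le.2 (h1.trans hy.1)
    have e2 : ¬ y ≤ γ := not_le.2 hy.1
    have e3 : y ≤ β := hy.2.le
    simp [e1, e2, e3]
  · subst h''
    refine a6.congr ?_
    filter_upwards [Ioi_mem_nhds h2] with y hy
    have e2 : ¬ y ≤ γ := not_le.2 hy
    have e1 : ¬ y ≤ α := not_le.2 (h1.trans hy)
    simp [e1, e2]
  · refine (a7 x h'').congr ?_
    filter_upwards [Ioi_mem_nhds h''] with y hy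
    have e3 : ¬ y ≤ β := not_le.2 hy
    have e2 : ¬ y ≤ γ := not_le.2 (h2.trans hy)
    have e1 : ¬ y ≤ α := not_le.2 (h1.trans (h2.trans hy))
    simp [e1, e2, e3]

/-- the third function -/
noncomputable def third (f g : ℝ → ℝ) (c m : ℝ) : ℝ → ℝ :=
  fun x => 1 / (1 / f x + 1 / g x - 1 / (c + m * x))

lemma third_continuousAt {f g : ℝ → ℝ} {c m x : ℝ} (hf : ContinuousAt f x) (hg : ContinuousAt g x)
    (hf0 : 0 < f x) (hg0 : 0 < g x) (hG0 : 0 < c + m * x)
    (hP : 0 < 1 / f x + 1 / g x - 1 / (c + m * x)) : ContinuousAt (third f g c m) x := by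
  have hG : ContinuousAt (fun y : ℝ => c + m * y) x := by fun_prop
  exact continuousAt_const.div (((continuousAt_const.div hf hf0.ne').add
    (continuousAt_const.div hg hg0.ne')).sub (continuousAt_const.div hG hG0.ne')) hP.ne'

lemma third_supp {f g : ℝ → ℝ} {c m x a b : ℝ} (hf : ContinuousAt f x) (hg : ContinuousAt g x)
    (hf0 : 0 < f x) (hg0 : 0 < g x) (hG0 : 0 < c + m * x)
    (hP : 0 < 1 / f x + 1 / g x - 1 / (c + m * x))
    (ha : ∀ y, f x + a * (y - x) ≤ f y) (hb : ∀ y, g x + b * (y - x) ≤ g y)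
    (hle : c + m * x ≤ g x) (hne : b / g x ≠ m / (c + m * x))
    (hc : 0 ≤ (b / g x - m / (c + m * x)) * (2 * (a / f x) - m / (c + m * x) - b / g x)) :
    ∀ᶠ y in 𝓝 x, third f g c m x + (third f g c m x) ^ 2 *
        (a / f x ^ 2 + b / g x ^ 2 - m / (c + m * x) ^ 2) * (y - x) ≤ third f g c m y := by
  have := key_local (f := f) (g := g) (G := fun y => c + m * y) (x := x) (a := a) (b := b) (m := m)
    hf hg hf0 hg0 hG0 (Eventually.of_forall ha) (Eventually.of_forall hb)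
    (fun y => by ring) hP
    (cond_of (by positivity) (by positivity) (one_div_le_one_div_of_le hG0 hle) hne hc)
  exact this

/-- bound from below near a touching point -/
lemma third_ge {f g : ℝ → ℝ} {c m x : ℝ} (hf : Continuous f) (hg : Continuous g)
    (hf0 : ∀ y, 0 < f y) (hg0 : ∀ y, 0 < g y) (hG0 : 0 < c + m * x)
    (heq : c + m * x = g x) (hle : ∀ᶠ y in 𝓝 x, c + m * y ≤ g y) :
    third f g c m x = f x ∧ ContinuousAt (third f g c m) x ∧
      ∀ᶠ y in 𝓝 x, f y ≤ third f g c m y := by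
  have hval : 1 / f x + 1 / g x - 1 / (c + m * x) = 1 / f x := by rw [heq]; ring
  have hP : 0 < 1 / f x + 1 / g x - 1 / (c + m * x) := by
    rw [hval]; have := hf0 x; positivity
  refine ⟨?_, third_continuousAt hf.continuousAt hg.continuousAt (hf0 x) (hg0 x) hG0 hP, ?_⟩
  · unfold third; rw [hval, one_div_one_div]
  · have hGc : ContinuousAt (fun y : ℝ => c + m * y) x := by fun_prop
    have hPc : ContinuousAt (fun y => 1 / f y + 1 / g y - 1 / (c + m * y)) x :=
      ((continuousAt_const.div hf.continuousAt (hf0 x).ne').add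
        (continuousAt_const.div hg.continuousAt (hg0 x).ne')).sub
        (continuousAt_const.div hGc hG0.ne')
    filter_upwards [hle, hGc.eventually (lt_mem_nhds hG0), hPc.eventually (lt_mem_nhds hP)]
      with y h1 h2 h3
    unfold third
    rw [le_div_iff₀ h3]
    have h4 : 1 / g y ≤ 1 / (c + m * y) := one_div_le_one_div_of_le h2 h1
    have h5 := hf0 y
    calc f y * (1 / f y + 1 / g y - 1 / (c + m * y)) ≤ f y * (1 / f y) := by
          apply mul_le_mul_of_nonneg_left _ h5.le; linarith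
      _ = 1 := by field_simp

/-- Condition on the zone where `c + m x` replaces `g`. -/
def ZoneCond (f g : ℝ → ℝ) (c m x : ℝ) : Prop :=
  0 < c + m * x ∧ c + m * x ≤ g x ∧ 0 < 1 / f x + 1 / g x - 1 / (c + m * x) ∧
  ∀ a b : ℝ, (∀ y, f x + a * (y - x) ≤ f y) → (∀ y, g x + b * (y - x) ≤ g y) →
    b / g x ≠ m / (c + m * x) ∧
    0 ≤ (b / g x - m / (c + m * x)) * (2 * (a / f x) - m / (c + m * x) - b / g x)

theorem zone_abstract {f g : ℝ → ℝ} (hf : Continuous f) (hg : Continuous g)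
    (hf0 : ∀ x, 0 < f x) (hg0 : ∀ x, 0 < g x)
    (hfs : ∀ x, ∃ a, ∀ y, f x + a * (y - x) ≤ f y) (hgs : ∀ x, ∃ a, ∀ y, g x + a * (y - x) ≤ g y)
    {α γ β c m d s a₀ b₀ : ℝ} (hαγ : α < γ) (hγβ : γ < β)
    (hGα : c + m * α = g α) (hGα' : ∀ᶠ y in 𝓝 α, c + m * y ≤ g y)
    (hβ : d + s * β = g β) (hβ' : ∀ᶠ y in 𝓝 β, d + s * y ≤ g y)
    (hzl : ∀ x, α < x → x ≤ γ → ZoneCond f g c m x)
    (hzr : ∀ x, γ ≤ x → x < β → ZoneCond f g d s x)
    (ha₀ : ∀ y, f γ + a₀ * (y - γ) ≤ f y) (hb₀ : ∀ y, g γ + b₀ * (y - γ) ≤ g y)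
    (hm0 : 1 / (c + m * γ) + 1 / (d + s * γ) = 1 / f γ + 1 / g γ)
    (hm1 : m / (c + m * γ) ^ 2 + s / (d + s * γ) ^ 2 = a₀ / f γ ^ 2 + b₀ / g γ ^ 2) :
    ∃ A B : ℝ → ℝ, (∀ x, LocSupp A x) ∧ (∀ x, LocSupp B x) ∧ (∀ x, 0 < A x) ∧ (∀ x, 0 < B x) ∧
      (∀ x, 1 / A x + 1 / B x = 1 / f x + 1 / g x) ∧ (∀ x, x ≤ α → A x = f x ∧ B x = g x) ∧
      (∀ x, β < x → A x = g x ∧ B x = f x) := by
  have hGαpos : 0 < c + m * α := by rw [hGα]; exact hg0 α
  have hβpos : 0 < d + s * β := by rw [hβ]; exact hg0 β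
  obtain ⟨l1, l2, l3⟩ := third_ge hf hg hf0 hg0 hGαpos hGα hGα'
  obtain ⟨r1, r2, r3⟩ := third_ge hf hg hf0 hg0 hβpos hβ hβ'
  obtain ⟨zl1, zl2, zl3, zl4⟩ := hzl γ hαγ le_rfl
  obtain ⟨zr1, zr2, zr3, zr4⟩ := hzr γ le_rfl hγβ
  -- values at `γ`
  have vl : third f g c m γ = d + s * γ := by
    unfold third
    have : 1 / f γ + 1 / g γ - 1 / (c + m * γ) = 1 / (d + s * γ) := by linarith
    rw [this, one_div_one_div]
  have vr : third f g d s γ = c + m * γ := by
    unfold third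
    have : 1 / f γ + 1 / g γ - 1 / (d + s * γ) = 1 / (c + m * γ) := by linarith
    rw [this, one_div_one_div]
  have sl : (third f g c m γ) ^ 2 * (a₀ / f γ ^ 2 + b₀ / g γ ^ 2 - m / (c + m * γ) ^ 2) = s := by
    rw [vl, ← hm1]; field_simp; ring
  have sr : (third f g d s γ) ^ 2 * (a₀ / f γ ^ 2 + b₀ / g γ ^ 2 - s / (d + s * γ) ^ 2) = m := by
    rw [vr, ← hm1]; field_simp; ring
  have suppl := third_supp hf.continuousAt hg.continuousAt (hf0 γ) (hg0 γ) zl1 zl3 ha₀ hb₀ zl2
    (zl4 a₀ b₀ ha₀ hb₀).1 (zl4 a₀ b₀ ha₀ hb₀).2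
  have suppr := third_supp hf.continuousAt hg.continuousAt (hf0 γ) (hg0 γ) zr1 zr3 ha₀ hb₀ zr2
    (zr4 a₀ b₀ ha₀ hb₀).1 (zr4 a₀ b₀ ha₀ hb₀).2
  rw [sl] at suppl
  rw [sr] at suppr
  have cl : ContinuousAt (third f g c m) γ :=
    third_continuousAt hf.continuousAt hg.continuousAt (hf0 γ) (hg0 γ) zl1 zl3
  have cr : ContinuousAt (third f g d s) γ :=
    third_continuousAt hf.continuousAt hg.continuousAt (hf0 γ) (hg0 γ) zr1 zr3
  have lsf : ∀ x, LocSupp f x := fun x => by
    obtain ⟨a, ha⟩ := hfs x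
    exact ⟨hf.continuousAt, a, Eventually.of_forall ha⟩
  have lsg : ∀ x, LocSupp g x := fun x => by
    obtain ⟨a, ha⟩ := hgs x
    exact ⟨hg.continuousAt, a, Eventually.of_forall ha⟩
  have lst : ∀ c m x, ZoneCond f g c m x → LocSupp (third f g c m) x := by
    intro c m x hz
    obtain ⟨z1, z2, z3, z4⟩ := hz
    obtain ⟨a, ha⟩ := hfs x
    obtain ⟨b, hb⟩ := hgs x
    exact ⟨third_continuousAt hf.continuousAt hg.continuousAt (hf0 x) (hg0 x) z1 z3, _,
      third_supp hf.continuousAt hg.continuousAt (hf0 x) (hg0 x) z1 z3 ha hb z2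
        (z4 a b ha hb).1 (z4 a b ha hb).2⟩
  have affs : ∀ c m x : ℝ, ∀ᶠ y in 𝓝 x, (c + m * x) + m * (y - x) ≤ c + m * y := by
    intro c m x
    refine Eventually.of_forall fun y => ?_
    linarith
  refine ⟨fun x => if x ≤ α then f x else if x ≤ γ then third f g c m x else
      if x ≤ β then d + s * x else g x,
    fun x => if x ≤ α then g x else if x ≤ γ then c + m * x else
      if x ≤ β then third f g d s x else f x, ?_, ?_, ?_, ?_, ?_, ?_, ?_⟩
  · refine quad_locSupp (u1 := f) (u2 := third f g c m) (u3 := fun x => d + s * x) (u4 := g)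
      hαγ hγβ (fun x _ => lsf x) ?_ (fun x h1 h2 => lst _ _ _ (hzl x h1 h2.le)) ?_
      (fun x _ _ => locSupp_affine d s x) ?_ (fun x _ => lsg x)
    · obtain ⟨a, ha⟩ := hfs α
      refine locSupp_glue_eq (s := a) l1.symm hf.continuousAt l2 (Eventually.of_forall ha) ?_
      filter_upwards [l3] with y hy
      rw [l1]
      exact (ha y).trans hy
    · exact locSupp_glue_eq (s := s) vl cl (by fun_prop) suppl (affs d s γ)
    · obtain ⟨a, ha⟩ := hgs β
      refine locSupp_glue_eq (s := s) hβ (by fun_prop) hg.continuousAt (affs d s β) ?_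
      filter_upwards [hβ'] with y hy
      rw [← hβ]; linarith
  · refine quad_locSupp (u1 := g) (u2 := fun x => c + m * x) (u3 := third f g d s) (u4 := f)
      hαγ hγβ (fun x _ => lsg x) ?_ (fun x _ _ => locSupp_affine c m x) ?_
      (fun x h1 h2 => lst _ _ _ (hzr x h1.le h2)) ?_ (fun x _ => lsf x)
    · refine locSupp_glue_eq (s := m) hGα.symm hg.continuousAt (by fun_prop) ?_ (affs c m α)
      filter_upwards [hGα'] with y hy
      rw [← hGα]; linarith
    · exact locSupp_glue_eq (s := m) vr.symm (by fun_prop) cr (affs c m γ) suppr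
    · obtain ⟨a, ha⟩ := hfs β
      refine locSupp_glue_eq (s := a) r1 r2 hf.continuousAt ?_ (Eventually.of_forall ha)
      filter_upwards [r3] with y hy
      rw [r1]
      exact (ha y).trans hy
  · intro x
    simp only
    split_ifs with h1 h2 h3
    · exact hf0 x
    · obtain ⟨z1, z2, z3, z4⟩ := hzl x (not_le.1 h1) h2
      unfold third; positivity
    · rcases h3.eq_or_lt with h4 | h4
      · rw [h4]; exact hβpos
      · exact (hzr x (not_le.1 h2).le h4).1
    · exact hg0 x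
  · intro x
    simp only
    split_ifs with h1 h2 h3
    · exact hg0 x
    · exact (hzl x (not_le.1 h1) h2).1
    · rcases h3.eq_or_lt with h4 | h4
      · rw [h4, r1]; exact hf0 β
      · obtain ⟨z1, z2, z3, z4⟩ := hzr x (not_le.1 h2).le h4
        unfold third; positivity
    · exact hf0 x
  · intro x
    simp only
    split_ifs with h1 h2 h3
    · rfl
    · unfold third; rw [one_div_one_div]; ring
    · unfold third; rw [one_div_one_div]; ring
    · ring
  · intro x hx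
    simp [hx]
  · intro x hx
    have e3 : ¬ x ≤ β := not_le.2 hx
    have e2 : ¬ x ≤ γ := not_le.2 (hγβ.trans hx)
    have e1 : ¬ x ≤ α := not_le.2 (hαγ.trans (hγβ.trans hx))
    simp [e1, e2, e3]

end Pool.Agent.Lib.MP_0b6b0e_gt
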