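import Mathlib
import Pool.Agent.Lib.MP_0b6b0e_gt.Zone

/-! The concrete transition zone. -/

set_option autoImplicit false

open Metric Set Topology Filter

namespace Pool.Agent.Lib.MP_0b6b0e_gt

/-- model function for the lower side -/
noncomputable def gmod (x : ℝ) : ℝ := max 6 (max (5 + x) (11 / 5 + 7 / 5 * x))

/-- closeness data on `[0, 9]` -/
structure Near (f g : ℝ → ℝ) : Prop where
  fc : Continuous f
  gc : Continuous g
  f0 : ∀ x, 0 < f x
  g0 : ∀ x, 0 < g x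
  fs : ∀ x, ∃ a, ∀ y, f x + a * (y - x) ≤ f y
  gs : ∀ x, ∃ a, ∀ y, g x + a * (y - x) ≤ g y
  fn : ∀ x, 0 ≤ x → x ≤ 9 → |f x - 3 / 4 * (5 + x)| ≤ 1 / 1000
  gn : ∀ x, 0 ≤ x → x ≤ 9 → |g x - gmod x| ≤ 1 / 1000

namespace Near

variable {f g : ℝ → ℝ} (h : Near f g)
include h

lemma f_le {x : ℝ} (h0 : 0 ≤ x) (h9 : x ≤ 9) : f x ≤ 3 / 4 * (5 + x) + 1 / 1000 := by
  have := (abs_le.1 (h.fn x h0 h9)).2; linarith

lemma f_ge {x : ℝ} (h0 : 0 ≤ x) (h9 : x ≤ 9) : 3 / 4 * (5 + x) - 1 / 1000 ≤ f x := by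
  have := (abs_le.1 (h.fn x h0 h9)).1; linarith

lemma g_ge6 {x : ℝ} (h0 : 0 ≤ x) (h9 : x ≤ 9) : 6 - 1 / 1000 ≤ g x := by
  have := (abs_le.1 (h.gn x h0 h9)).1
  have h1 : 6 ≤ gmod x := le_max_left _ _
  linarith

lemma g_ge5 {x : ℝ} (h0 : 0 ≤ x) (h9 : x ≤ 9) : 5 + x - 1 / 1000 ≤ g x := by
  have := (abs_le.1 (h.gn x h0 h9)).1
  have h1 : 5 + x ≤ gmod x := (le_max_left _ _).trans (le_max_right _ _)
  linarith

lemma g_ge7 {x : ℝ} (h0 : 0 ≤ x) (h9 : x ≤ 9) : 11 / 5 + 7 / 5 * x - 1 / 1000 ≤ g x := by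
  have := (abs_le.1 (h.gn x h0 h9)).1
  have h1 : 11 / 5 + 7 / 5 * x ≤ gmod x := (le_max_right _ _).trans (le_max_right _ _)
  linarith

lemma g_le {x : ℝ} (h0 : 0 ≤ x) (h9 : x ≤ 9) : g x ≤ gmod x + 1 / 1000 := by
  have := (abs_le.1 (h.gn x h0 h9)).2; linarith

lemma g_le_mid {x : ℝ} (h0 : 1 ≤ x) (h9 : x ≤ 7) : g x ≤ 5 + x + 1 / 1000 := by
  have h1 := h.g_le (by linarith) (by linarith : x ≤ 9)
  have h2 : gmod x = 5 + x := by
    unfold gmod
    rw [max_eq_left (show 11 / 5 + 7 / 5 * x ≤ 5 + x by linarith), max_eq_right (by linarith)]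
  linarith

lemma g_le_right {x : ℝ} (h0 : 7 ≤ x) (h9 : x ≤ 9) : g x ≤ 11 / 5 + 7 / 5 * x + 1 / 1000 := by
  have h1 := h.g_le (by linarith) h9
  have h2 : gmod x = 11 / 5 + 7 / 5 * x := by
    unfold gmod
    rw [max_eq_right (show 5 + x ≤ 11 / 5 + 7 / 5 * x by linarith), max_eq_right (by linarith)]
  linarith

/-- slopes of `f` -/
lemma fslope_ge {x a : ℝ} (h0 : 1 / 2 ≤ x) (h9 : x ≤ 9) (ha : ∀ y, f x + a * (y - x) ≤ f y) :
    3 / 4 - 4 / 1000 ≤ a := by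
  have h1 := ha 0
  have h2 := h.f_le (le_refl (0 : ℝ)) (by norm_num)
  have h3 := h.f_ge (by linarith : 0 ≤ x) h9
  by_contra hcon
  push Not at hcon
  nlinarith

lemma fslope_le {x a : ℝ} (h0 : 0 ≤ x) (h9 : x ≤ 8) (ha : ∀ y, f x + a * (y - x) ≤ f y) :
    a ≤ 3 / 4 + 2 / 1000 := by
  have h1 := ha 9
  have h2 := h.f_le (by norm_num : (0 : ℝ) ≤ 9) (by norm_num)
  have h3 := h.f_ge h0 (by linarith : x ≤ 9)
  by_contra hcon
  push Not at hcon
  nlinarith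

lemma gslope_le {x b : ℝ} (h0 : 0 ≤ x) (h9 : x ≤ 3) (hb : ∀ y, g x + b * (y - x) ≤ g y) :
    b ≤ 1 + 1 / 1000 := by
  have h1 := hb 7
  have h2 := h.g_le_mid (by norm_num : (1 : ℝ) ≤ 7) (by norm_num)
  have h3 := h.g_ge5 h0 (by linarith : x ≤ 9)
  by_contra hcon
  push Not at hcon
  nlinarith

lemma gslope_ge {x b : ℝ} (h0 : 3 ≤ x) (h9 : x ≤ 9) (hb : ∀ y, g x + b * (y - x) ≤ g y) :
    1 - 1 / 1000 ≤ b := by
  have h1 := hb 1
  have h2 := h.g_le_mid (le_refl (1 : ℝ)) (by norm_num)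
  have h3 := h.g_ge5 (by linarith : 0 ≤ x) h9
  by_contra hcon
  push Not at hcon
  nlinarith

omit h in
/-- the (restricted) conjugate function -/
noncomputable def _root_.Pool.Agent.Lib.MP_0b6b0e_gt.cfun (g : ℝ → ℝ) (m : ℝ) : ℝ :=
  sInf ((fun x => g x - m * x) '' Icc 0 9)

lemma cfun_continuous : Continuous (cfun g) := by
  unfold cfun
  have := (isCompact_Icc (a := (0 : ℝ)) (b := 9)).continuous_sInf
    (f := fun (m x : ℝ) => g x - m * x) (by
      have := h.gc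
      fun_prop)
  exact this

lemma cfun_le (m : ℝ) {x : ℝ} (h0 : 0 ≤ x) (h9 : x ≤ 9) : cfun g m + m * x ≤ g x := by
  have hb : BddBelow ((fun x => g x - m * x) '' Icc 0 9) :=
    (isCompact_Icc.image (by have := h.gc; fun_prop)).bddBelow
  have := csInf_le hb ⟨x, ⟨h0, h9⟩, rfl⟩
  unfold cfun
  linarith

lemma cfun_attained (m : ℝ) : ∃ x, 0 ≤ x ∧ x ≤ 9 ∧ cfun g m + m * x = g x := by
  have hne : (Icc (0 : ℝ) 9).Nonempty := ⟨0, by norm_num, by norm_num⟩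
  obtain ⟨x, hx, hx2⟩ := (isCompact_Icc (a := (0 : ℝ)) (b := 9)).exists_sInf_image_eq hne
    (f := fun x => g x - m * x) (by have := h.gc; fun_prop)
  refine ⟨x, hx.1, hx.2, ?_⟩
  unfold cfun
  rw [hx2]; ring

lemma touch_left {m x : ℝ} (hm1 : 2 / 5 ≤ m) (hm2 : m ≤ 1 / 2) (h0 : 0 ≤ x) (h9 : x ≤ 9)
    (hx : cfun g m + m * x = g x) : 1 / 2 < x ∧ x < 3 / 2 := by
  have h1 := h.cfun_le m (x := 1) (by norm_num) (by norm_num)
  have h2 := h.g_le_mid (le_refl (1 : ℝ)) (by norm_num)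
  have h3 := h.g_ge6 h0 h9
  have h4 := h.g_ge5 h0 h9
  constructor
  · by_contra hcon
    push Not at hcon
    nlinarith
  · by_contra hcon
    push Not at hcon
    nlinarith

lemma touch_right {m x : ℝ} (hm1 : 11 / 10 ≤ m) (hm2 : m ≤ 138 / 100) (h0 : 0 ≤ x) (h9 : x ≤ 9)
    (hx : cfun g m + m * x = g x) : 13 / 2 < x ∧ x < 15 / 2 := by
  have h1 := h.cfun_le m (x := 7) (by norm_num) (by norm_num)
  have h2 := h.g_le_mid (by norm_num : (1 : ℝ) ≤ 7) (by norm_num)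
  have h3 := h.g_ge7 h0 h9
  have h4 := h.g_ge5 h0 h9
  constructor
  · by_contra hcon
    push Not at hcon
    nlinarith
  · by_contra hcon
    push Not at hcon
    nlinarith

lemma exists_alpha {m : ℝ} (hm1 : 2 / 5 ≤ m) (hm2 : m ≤ 1 / 2) :
    ∃ α, 1 / 2 < α ∧ α < 3 / 2 ∧ cfun g m + m * α = g α ∧
      ∀ x, α < x → x ≤ 9 → cfun g m + m * x < g x := by
  have hcl : IsClosed {x | cfun g m + m * x = g x} :=
    isClosed_eq (by fun_prop) h.gc
  have hcomp : IsCompact (Icc (0 : ℝ) 9 ∩ {x | cfun g m + m * x = g x}) :=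
    isCompact_Icc.inter_right hcl
  obtain ⟨x, hx0, hx9, hx⟩ := h.cfun_attained m
  obtain ⟨α, ⟨hα, hα'⟩, hαmax⟩ := hcomp.exists_isGreatest ⟨x, ⟨hx0, hx9⟩, hx⟩
  have ht := h.touch_left hm1 hm2 hα.1 hα.2 hα'
  refine ⟨α, ht.1, ht.2, hα', fun y hy hy9 => ?_⟩
  have hy0 : 0 ≤ y := by linarith
  refine lt_of_le_of_ne (h.cfun_le m hy0 hy9) fun heq => ?_
  have := hαmax ⟨⟨hy0, hy9⟩, heq⟩
  linarith

lemma exists_beta {m : ℝ} (hm1 : 11 / 10 ≤ m) (hm2 : m ≤ 138 / 100) :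
    ∃ β, 13 / 2 < β ∧ β < 15 / 2 ∧ cfun g m + m * β = g β ∧
      ∀ x, 0 ≤ x → x < β → cfun g m + m * x < g x := by
  have hcl : IsClosed {x | cfun g m + m * x = g x} :=
    isClosed_eq (by fun_prop) h.gc
  have hcomp : IsCompact (Icc (0 : ℝ) 9 ∩ {x | cfun g m + m * x = g x}) :=
    isCompact_Icc.inter_right hcl
  obtain ⟨x, hx0, hx9, hx⟩ := h.cfun_attained m
  obtain ⟨β, ⟨hβ, hβ'⟩, hβmin⟩ := hcomp.exists_isLeast ⟨x, ⟨hx0, hx9⟩, hx⟩
  have ht := h.touch_right hm1 hm2 hβ.1 hβ.2 hβ'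
  refine ⟨β, ht.1, ht.2, hβ', fun y hy0 hy => ?_⟩
  have hy9 : y ≤ 9 := by linarith
  refine lt_of_le_of_ne (h.cfun_le m hy0 hy9) fun heq => ?_
  have := hβmin ⟨⟨hy0, hy9⟩, heq⟩
  linarith

lemma cfun_ge_left {m : ℝ} (hm1 : 2 / 5 ≤ m) (hm2 : m ≤ 1 / 2) :
    6 - m - 1 / 1000 ≤ cfun g m := by
  obtain ⟨x, hx0, hx9, hx⟩ := h.cfun_attained m
  have h3 := h.g_ge6 hx0 hx9
  have h4 := h.g_ge5 hx0 hx9
  rcases le_total x 1 with h5 | h5 <;> nlinarith

lemma cfun_le_left (m : ℝ) : cfun g m ≤ 6 - m + 1 / 1000 := by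
  have h1 := h.cfun_le m (x := 1) (by norm_num) (by norm_num)
  have h2 := h.g_le_mid (le_refl (1 : ℝ)) (by norm_num)
  linarith

lemma cfun_ge_right {m : ℝ} (hm1 : 11 / 10 ≤ m) (hm2 : m ≤ 138 / 100) :
    12 - 7 * m - 1 / 1000 ≤ cfun g m := by
  obtain ⟨x, hx0, hx9, hx⟩ := h.cfun_attained m
  have h3 := h.g_ge7 hx0 hx9
  have h4 := h.g_ge5 hx0 hx9
  rcases le_total x 7 with h5 | h5 <;> nlinarith

lemma cfun_le_right (m : ℝ) : cfun g m ≤ 12 - 7 * m + 1 / 1000 := by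
  have h1 := h.cfun_le m (x := 7) (by norm_num) (by norm_num)
  have h2 := h.g_le_mid (by norm_num : (1 : ℝ) ≤ 7) (by norm_num)
  linarith

lemma zone_left {m α : ℝ} (hm1 : 2 / 5 ≤ m) (hm2 : m ≤ 1 / 2) (hα1 : 1 / 2 < α)
    (hα : cfun g m + m * α = g α)
    (hα' : ∀ x, α < x → x ≤ 9 → cfun g m + m * x < g x) (x : ℝ) (hx : α < x) (hx3 : x ≤ 3) :
    ZoneCond f g (cfun g m) m x := by
  set c := cfun g m with hc
  have hc1 : 6 - m - 1 / 1000 ≤ c := h.cfun_ge_left hm1 hm2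
  have hx0 : 1 / 2 ≤ x := by linarith
  have hG0 : 0 < c + m * x := by nlinarith
  have hlt := hα' x hx (by linarith)
  have hfx := h.f0 x
  have hgx := h.g0 x
  have hfle := h.f_le (by linarith : 0 ≤ x) (by linarith)
  have hfG : f x ≤ c + m * x := by nlinarith
  refine ⟨hG0, hlt.le, ?_, ?_⟩
  · have h1 : 1 / (c + m * x) ≤ 1 / f x := one_div_le_one_div_of_le hfx hfG
    have h2 : 0 < 1 / g x := by positivity
    linarith
  · intro a b ha hb
    have hα0 : 0 < c + m * α := by rw [hα]; exact h.g0 α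
    have hbgt : m / (c + m * x) < b / g x := by
      rw [div_lt_div_iff₀ hG0 hgx]
      have h1 := hb α
      rw [← hα] at h1
      have hxα : 0 < x - α := by linarith
      have h2 : (g x - (c + m * α)) ≤ b * (x - α) := by linarith
      have h3 : (g x - (c + m * α)) * (c + m * x) ≤ b * (x - α) * (c + m * x) :=
        mul_le_mul_of_nonneg_right h2 hG0.le
      have h4 : 0 < (c + m * α) * (g x - (c + m * x)) := mul_pos hα0 (by linarith)
      have h5 : m * g x * (x - α) < b * (c + m * x) * (x - α) := by nlinarith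
      exact lt_of_mul_lt_mul_right h5 hxα.le
    refine ⟨hbgt.ne', ?_⟩
    have e5 : (0 : ℝ) < 5 + x := by linarith
    have hale := h.fslope_ge hx0 (by linarith) ha
    have hbl := h.gslope_le (by linarith : 0 ≤ x) hx3 hb
    have hg5 := h.g_ge5 (by linarith : 0 ≤ x) (by linarith)
    have i1 : (95 / 100) / (5 + x) ≤ a / f x := by
      rw [div_le_div_iff₀ e5 hfx]
      nlinarith
    have i2 : b / g x ≤ (11 / 10) / (5 + x) := by
      rw [div_le_div_iff₀ hgx e5]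
      nlinarith
    have i3 : m / (c + m * x) ≤ (7 / 10) / (5 + x) := by
      rw [div_le_div_iff₀ hG0 e5]
      nlinarith
    have i4 : 2 * ((95 / 100) / (5 + x)) - (7 / 10) / (5 + x) - (11 / 10) / (5 + x)
        = (1 / 10) / (5 + x) := by ring
    have i5 : 0 ≤ (1 / 10) / (5 + x) := by positivity
    apply mul_nonneg
    · linarith
    · linarith

lemma zone_right {s β : ℝ} (hs1 : 115 / 100 ≤ s)
    (hβ2 : β < 15 / 2) (hβ : cfun g s + s * β = g β) (h3 : 67 / 10 ≤ cfun g s + s * 3)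
    (hβ' : ∀ x, 0 ≤ x → x < β → cfun g s + s * x < g x) (x : ℝ) (hx3 : 3 ≤ x) (hx : x < β) :
    ZoneCond f g (cfun g s) s x := by
  set d := cfun g s with hd
  have hG0 : 0 < d + s * x := by nlinarith
  have hlt := hβ' x (by linarith) hx
  have hfx := h.f0 x
  have hgx := h.g0 x
  have hfle := h.f_le (by linarith : 0 ≤ x) (by linarith)
  have hfge := h.f_ge (by linarith : 0 ≤ x) (by linarith)
  have hfG : f x ≤ d + s * x := by nlinarith
  refine ⟨hG0, hlt.le, ?_, ?_⟩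
  · have h1 : 1 / (d + s * x) ≤ 1 / f x := one_div_le_one_div_of_le hfx hfG
    have h2 : 0 < 1 / g x := by positivity
    linarith
  · intro a b ha hb
    have hβ0 : 0 < d + s * β := by rw [hβ]; exact h.g0 β
    have hblt : b / g x < s / (d + s * x) := by
      rw [div_lt_div_iff₀ hgx hG0]
      have h1 := hb β
      rw [← hβ] at h1
      have hxβ : 0 < β - x := by linarith
      have h2 : b * (β - x) ≤ (d + s * β) - g x := by linarith
      have h3 : b * (β - x) * (d + s * x) ≤ ((d + s * β) - g x) * (d + s * x) :=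
        mul_le_mul_of_nonneg_right h2 hG0.le
      have h4 : 0 < (d + s * β) * (g x - (d + s * x)) := mul_pos hβ0 (by linarith)
      have h5 : b * (d + s * x) * (β - x) < s * g x * (β - x) := by nlinarith
      exact lt_of_mul_lt_mul_right h5 hxβ.le
    refine ⟨hblt.ne, ?_⟩
    have e5 : (0 : ℝ) < 5 + x := by linarith
    have hale := h.fslope_le (by linarith : 0 ≤ x) (by linarith) ha
    have hbl := h.gslope_ge hx3 (by linarith) hb
    have hgle : g x ≤ (102 / 100) * (5 + x) := by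
      rcases le_total x 7 with h7 | h7
      · have := h.g_le_mid (by linarith) h7; linarith
      · have := h.g_le_right h7 (by linarith); linarith
    have i1 : a / f x ≤ (102 / 100) / (5 + x) := by
      rw [div_le_div_iff₀ hfx e5]
      nlinarith
    have i2 : (97 / 100) / (5 + x) ≤ b / g x := by
      rw [div_le_div_iff₀ e5 hgx]
      nlinarith
    have i3 : (112 / 100) / (5 + x) ≤ s / (d + s * x) := by
      rw [div_le_div_iff₀ e5 hG0]
      nlinarith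
    have i4 : 2 * ((102 / 100) / (5 + x)) - (112 / 100) / (5 + x) - (97 / 100) / (5 + x)
        = -((5 / 100) / (5 + x)) := by ring
    have i5 : 0 ≤ (5 / 100) / (5 + x) := by positivity
    apply mul_nonneg_of_nonpos_of_nonpos
    · linarith
    · linarith

end Near

end Pool.Agent.Lib.MP_0b6b0e_gt
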