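import Mathlib
import Pool.Agent.Lib.MP_0b6b0e_gt.Concrete

/-! The matching of the two lines by the intermediate value theorem. -/

set_option autoImplicit false

open Metric Set Topology Filter

namespace Pool.Agent.Lib.MP_0b6b0e_gt

namespace Near

variable {f g : ℝ → ℝ} (h : Near f g)
include h

/-- numeric bounds for the data at the point `3`. -/
lemma data_bounds {a b : ℝ} (ha : ∀ y, f 3 + a * (y - 3) ≤ f y)
    (hb : ∀ y, g 3 + b * (y - 3) ≤ g y) :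
    (16663 / 100000 ≤ 1 / f 3 ∧ 1 / f 3 ≤ 1667 / 10000) ∧
    (12498 / 100000 ≤ 1 / g 3 ∧ 1 / g 3 ≤ 12502 / 100000) ∧
    (364 / 10000 ≤ a / f 3 ^ 2 + b / g 3 ^ 2 ∧ a / f 3 ^ 2 + b / g 3 ^ 2 ≤ 3655 / 100000) := by
  have f1 := h.f_le (x := 3) (by norm_num) (by norm_num)
  have f2 := h.f_ge (x := 3) (by norm_num) (by norm_num)
  have g1 := h.g_le_mid (x := 3) (by norm_num) (by norm_num)
  have g2 := h.g_ge5 (x := 3) (by norm_num) (by norm_num)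
  have f0 := h.f0 3
  have g0 := h.g0 3
  have fz := h.f_le (x := 0) (by norm_num) (by norm_num)
  have a1 : 7493 / 10000 ≤ a := by
    have := ha 0
    linarith
  have a2 := h.fslope_le (x := 3) (by norm_num) (by norm_num) ha
  have b1 := h.gslope_ge (x := 3) le_rfl (by norm_num) hb
  have b2 := h.gslope_le (x := 3) (by norm_num) le_rfl hb
  set u := 1 / f 3 with hu
  set v := 1 / g 3 with hv
  have u1 : 16663 / 100000 ≤ u := by rw [hu, le_div_iff₀ f0]; linarith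
  have u2 : u ≤ 1667 / 10000 := by rw [hu, div_le_iff₀ f0]; linarith
  have v1 : 12498 / 100000 ≤ v := by rw [hv, le_div_iff₀ g0]; linarith
  have v2 : v ≤ 12502 / 100000 := by rw [hv, div_le_iff₀ g0]; linarith
  have e1 : a / f 3 ^ 2 = a * u ^ 2 := by rw [hu]; field_simp
  have e2 : b / g 3 ^ 2 = b * v ^ 2 := by rw [hv]; field_simp
  refine ⟨⟨u1, u2⟩, ⟨v1, v2⟩, ?_⟩
  rw [e1, e2]
  have uu1 : (16663 / 100000) ^ 2 ≤ u ^ 2 := by gcongr
  have uu2 : u ^ 2 ≤ (1667 / 10000) ^ 2 := by gcongr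
  have vv1 : (12498 / 100000) ^ 2 ≤ v ^ 2 := by gcongr
  have vv2 : v ^ 2 ≤ (12502 / 100000) ^ 2 := by gcongr
  have i1 : 7493 / 10000 * (16663 / 100000) ^ 2 ≤ a * u ^ 2 := by gcongr
  have i2 : a * u ^ 2 ≤ (3 / 4 + 2 / 1000) * (1667 / 10000) ^ 2 := by gcongr
  have i3 : (1 - 1 / 1000) * (12498 / 100000) ^ 2 ≤ b * v ^ 2 := by
    apply mul_le_mul b1 vv1 (by positivity) (by linarith)
  have i4 : b * v ^ 2 ≤ (1 + 1 / 1000) * (12502 / 100000) ^ 2 := by gcongr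
  constructor
  · norm_num at i1 i3 ⊢; linarith
  · norm_num at i2 i4 ⊢; linarith

lemma phi_bounds {m : ℝ} (hm1 : 2 / 5 ≤ m) (hm2 : m ≤ 1 / 2) :
    6 + 2 * m - 1 / 1000 ≤ cfun g m + m * 3 ∧ cfun g m + m * 3 ≤ 6 + 2 * m + 1 / 1000 := by
  have h1 := h.cfun_ge_left hm1 hm2
  have h2 := h.cfun_le_left m
  constructor <;> linarith

omit h in
/-- pure arithmetic: bounds of the transition quantities -/
lemma arith {u v A m φ : ℝ} (u1 : 16663 / 100000 ≤ u) (u2 : u ≤ 1667 / 10000)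
    (v1 : 12498 / 100000 ≤ v) (v2 : v ≤ 12502 / 100000) (A1 : 364 / 10000 ≤ A)
    (A2 : A ≤ 3655 / 100000) (hm1 : 2 / 5 ≤ m) (hm2 : m ≤ 1 / 2)
    (φ1 : 6 + 2 * m - 1 / 1000 ≤ φ) (φ2 : φ ≤ 6 + 2 * m + 1 / 1000) :
    0 < u + v - 1 / φ ∧ 67 / 10 ≤ 1 / (u + v - 1 / φ) ∧
      115 / 100 ≤ (1 / (u + v - 1 / φ)) ^ 2 * (A - m / φ ^ 2) ∧
      (1 / (u + v - 1 / φ)) ^ 2 * (A - m / φ ^ 2) ≤ 138 / 100 := by
  have φ0 : 0 < φ := by linarith
  set w := 1 / φ with hw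
  have w1 : 1428 / 10000 ≤ w := by rw [hw, le_div_iff₀ φ0]; linarith
  have w2 : w ≤ 1471 / 10000 := by rw [hw, div_le_iff₀ φ0]; linarith
  have e : m / φ ^ 2 = m * w ^ 2 := by rw [hw]; field_simp
  have P1 : 14451 / 100000 ≤ u + v - w := by linarith
  have P2 : u + v - w ≤ 14892 / 100000 := by linarith
  have P0 : 0 < u + v - w := by linarith
  set F := 1 / (u + v - w) with hF
  have F1 : 6715 / 1000 ≤ F := by rw [hF, le_div_iff₀ P0]; linarith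
  have F2 : F ≤ 692 / 100 := by rw [hF, div_le_iff₀ P0]; linarith
  have w0 : 0 ≤ w := by linarith
  have ww1 : (1428 / 10000) ^ 2 ≤ w ^ 2 := by gcongr
  have ww2 : w ^ 2 ≤ (1471 / 10000) ^ 2 := by gcongr
  have i1 : 2 / 5 * (1428 / 10000) ^ 2 ≤ m * w ^ 2 := by gcongr
  have i2 : m * w ^ 2 ≤ 1 / 2 * (1471 / 10000) ^ 2 := by gcongr
  norm_num at i1 i2
  have FF1 : (6715 / 1000) ^ 2 ≤ F ^ 2 := by gcongr
  have FF2 : F ^ 2 ≤ (692 / 100) ^ 2 := by gcongr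
  have R1 : 2558 / 100000 ≤ A - m * w ^ 2 := by linarith
  have R2 : A - m * w ^ 2 ≤ 284 / 10000 := by linarith
  refine ⟨P0, by linarith, ?_, ?_⟩
  · rw [e]
    calc (115 / 100 : ℝ) ≤ (6715 / 1000) ^ 2 * (2558 / 100000) := by norm_num
      _ ≤ F ^ 2 * (A - m * w ^ 2) := by gcongr
  · rw [e]
    calc F ^ 2 * (A - m * w ^ 2) ≤ (692 / 100) ^ 2 * (284 / 10000) := by
          apply mul_le_mul FF2 R2 (by linarith) (by positivity)
      _ ≤ 138 / 100 := by norm_num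

omit h in
lemma arith_left {u v A φ : ℝ} (u1 : 16663 / 100000 ≤ u) (u2 : u ≤ 1667 / 10000)
    (v1 : 12498 / 100000 ≤ v) (v2 : v ≤ 12502 / 100000) (A1 : 364 / 10000 ≤ A)
    (φ1 : 6 + 2 * (2 / 5) - 1 / 1000 ≤ φ) (φ2 : φ ≤ 6 + 2 * (2 / 5) + 1 / 1000) :
    12 + 1 / 1000 - 4 * ((1 / (u + v - 1 / φ)) ^ 2 * (A - (2 / 5) / φ ^ 2))
      - 1 / (u + v - 1 / φ) ≤ 0 := by
  have φ0 : 0 < φ := by linarith
  set w := 1 / φ with hw
  have w1 : 147 / 1000 ≤ w := by rw [hw, le_div_iff₀ φ0]; linarith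
  have w2 : w ≤ 1471 / 10000 := by rw [hw, div_le_iff₀ φ0]; linarith
  have e : (2 / 5) / φ ^ 2 = (2 / 5) * w ^ 2 := by rw [hw]; field_simp
  have P2 : u + v - w ≤ 14472 / 100000 := by linarith
  have P0 : 0 < u + v - w := by linarith
  set F := 1 / (u + v - w) with hF
  have F1 : 69 / 10 ≤ F := by rw [hF, le_div_iff₀ P0]; linarith
  have w0 : 0 ≤ w := by linarith
  have ww2 : w ^ 2 ≤ (1471 / 10000) ^ 2 := by gcongr
  have i2 : (2 / 5) * w ^ 2 ≤ (2 / 5) * (1471 / 10000) ^ 2 := by gcongr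
  norm_num at i2
  have FF1 : (69 / 10) ^ 2 ≤ F ^ 2 := by gcongr
  have R1 : 277 / 10000 ≤ A - (2 / 5) * w ^ 2 := by linarith
  rw [e]
  have : (69 / 10) ^ 2 * (277 / 10000) ≤ F ^ 2 * (A - (2 / 5) * w ^ 2) := by gcongr
  norm_num at this ⊢
  linarith

omit h in
lemma arith_right {u v A φ : ℝ} (u1 : 16663 / 100000 ≤ u) (u2 : u ≤ 1667 / 10000)
    (v1 : 12498 / 100000 ≤ v) (v2 : v ≤ 12502 / 100000) (A1 : 364 / 10000 ≤ A)
    (A2 : A ≤ 3655 / 100000)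
    (φ1 : 6 + 2 * (1 / 2) - 1 / 1000 ≤ φ) (φ2 : φ ≤ 6 + 2 * (1 / 2) + 1 / 1000) :
    0 ≤ 12 - 1 / 1000 - 4 * ((1 / (u + v - 1 / φ)) ^ 2 * (A - (1 / 2) / φ ^ 2))
      - 1 / (u + v - 1 / φ) := by
  have φ0 : 0 < φ := by linarith
  set w := 1 / φ with hw
  have w1 : 1428 / 10000 ≤ w := by rw [hw, le_div_iff₀ φ0]; linarith
  have w2 : w ≤ 1429 / 10000 := by rw [hw, div_le_iff₀ φ0]; linarith
  have e : (1 / 2) / φ ^ 2 = (1 / 2) * w ^ 2 := by rw [hw]; field_simp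
  have P1 : 1487 / 10000 ≤ u + v - w := by linarith
  have P0 : 0 < u + v - w := by linarith
  set F := 1 / (u + v - w) with hF
  have F0 : 0 < F := by positivity
  have F2 : F ≤ 673 / 100 := by rw [hF, div_le_iff₀ P0]; linarith
  have w0 : 0 ≤ w := by linarith
  have ww1 : (1428 / 10000) ^ 2 ≤ w ^ 2 := by gcongr
  have ww2 : w ^ 2 ≤ (1429 / 10000) ^ 2 := by gcongr
  have i1 : (1 / 2) * (1428 / 10000) ^ 2 ≤ (1 / 2) * w ^ 2 := by gcongr
  have i2 : (1 / 2) * w ^ 2 ≤ (1 / 2) * (1429 / 10000) ^ 2 := by gcongr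
  norm_num at i1 i2
  have FF2 : F ^ 2 ≤ (673 / 100) ^ 2 := by gcongr
  have R2 : A - (1 / 2) * w ^ 2 ≤ 264 / 10000 := by linarith
  have R1 : 0 ≤ A - (1 / 2) * w ^ 2 := by linarith
  rw [e]
  have : F ^ 2 * (A - (1 / 2) * w ^ 2) ≤ (673 / 100) ^ 2 * (264 / 10000) := by
    apply mul_le_mul FF2 R2 R1 (by positivity)
  norm_num at this ⊢
  linarith

/-- The matching statement. -/
lemma matching : ∃ m s a b : ℝ, 2 / 5 ≤ m ∧ m ≤ 1 / 2 ∧ 115 / 100 ≤ s ∧ s ≤ 138 / 100 ∧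
    (∀ y, f 3 + a * (y - 3) ≤ f y) ∧ (∀ y, g 3 + b * (y - 3) ≤ g y) ∧
    67 / 10 ≤ cfun g s + s * 3 ∧
    1 / (cfun g m + m * 3) + 1 / (cfun g s + s * 3) = 1 / f 3 + 1 / g 3 ∧
    m / (cfun g m + m * 3) ^ 2 + s / (cfun g s + s * 3) ^ 2 = a / f 3 ^ 2 + b / g 3 ^ 2 := by
  obtain ⟨a, ha⟩ := h.fs 3
  obtain ⟨b, hb⟩ := h.gs 3
  obtain ⟨⟨u1, u2⟩, ⟨v1, v2⟩, A1, A2⟩ := h.data_bounds ha hb
  set u := 1 / f 3 with hu
  set v := 1 / g 3 with hv
  set A := a / f 3 ^ 2 + b / g 3 ^ 2 with hA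
  set φ : ℝ → ℝ := fun m => cfun g m + m * 3 with hφ
  set F : ℝ → ℝ := fun m => 1 / (u + v - 1 / φ m) with hF
  set s : ℝ → ℝ := fun m => (F m) ^ 2 * (A - m / (φ m) ^ 2) with hs
  set D : ℝ → ℝ := fun m => cfun g (s m) + s m * 3 - F m with hD
  have cc := h.cfun_continuous
  have φc : Continuous φ := by
    simp only [hφ]; fun_prop
  have key : ∀ m ∈ Icc (2 / 5 : ℝ) (1 / 2), 0 < φ m ∧ 0 < u + v - 1 / φ m ∧ 67 / 10 ≤ F m ∧
      115 / 100 ≤ s m ∧ s m ≤ 138 / 100 := by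
    intro m hm
    obtain ⟨p1, p2⟩ := h.phi_bounds hm.1 hm.2
    have φ0 : 0 < φ m := by simp only [hφ]; linarith [hm.1]
    obtain ⟨q1, q2, q3, q4⟩ := arith u1 u2 v1 v2 A1 A2 hm.1 hm.2 p1 p2
    exact ⟨φ0, q1, q2, q3, q4⟩
  have Fc : ContinuousOn F (Icc (2 / 5) (1 / 2)) := by
    simp only [hF]
    refine continuousOn_const.div ((continuousOn_const).sub
      (continuousOn_const.div φc.continuousOn fun m hm => (key m hm).1.ne')) fun m hm =>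
        (key m hm).2.1.ne'
  have sc : ContinuousOn s (Icc (2 / 5) (1 / 2)) := by
    simp only [hs]
    refine (Fc.pow 2).mul (continuousOn_const.sub (continuousOn_id.div (φc.continuousOn.pow 2)
      fun m hm => (pow_pos (key m hm).1 2).ne'))
  have Dc : ContinuousOn D (Icc (2 / 5) (1 / 2)) := by
    simp only [hD]
    exact ((cc.comp_continuousOn sc).add (sc.mul continuousOn_const)).sub Fc
  have hm1 : (2 / 5 : ℝ) ∈ Icc (2 / 5 : ℝ) (1 / 2) := ⟨le_rfl, by norm_num⟩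
  have hm2 : (1 / 2 : ℝ) ∈ Icc (2 / 5 : ℝ) (1 / 2) := ⟨by norm_num, le_rfl⟩
  have D1 : D (2 / 5) ≤ 0 := by
    obtain ⟨p1, p2⟩ := h.phi_bounds hm1.1 hm1.2
    have := arith_left u1 u2 v1 v2 A1 p1 p2
    have h2 := h.cfun_le_right (s (2 / 5))
    have e : s (2 / 5) = (1 / (u + v - 1 / φ (2 / 5))) ^ 2 * (A - (2 / 5) / φ (2 / 5) ^ 2) := rfl
    have e2 : F (2 / 5) = 1 / (u + v - 1 / φ (2 / 5)) := rfl
    simp only [hD]
    rw [← e] at this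
    rw [← e2] at this
    linarith
  have D2 : 0 ≤ D (1 / 2) := by
    obtain ⟨p1, p2⟩ := h.phi_bounds hm2.1 hm2.2
    have := arith_right u1 u2 v1 v2 A1 A2 p1 p2
    obtain ⟨-, -, -, k4, k5⟩ := key _ hm2
    have h2 := h.cfun_ge_right (m := s (1 / 2)) (by linarith) k5
    have e : s (1 / 2) = (1 / (u + v - 1 / φ (1 / 2))) ^ 2 * (A - (1 / 2) / φ (1 / 2) ^ 2) := rfl
    have e2 : F (1 / 2) = 1 / (u + v - 1 / φ (1 / 2)) := rfl
    simp only [hD]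
    rw [← e] at this
    rw [← e2] at this
    linarith
  obtain ⟨m, hm, hm0⟩ := intermediate_value_Icc (by norm_num : (2 / 5 : ℝ) ≤ 1 / 2) Dc ⟨D1, D2⟩
  obtain ⟨k1, k2, k3, k4, k5⟩ := key m hm
  have hFm : cfun g (s m) + s m * 3 = F m := by
    have : cfun g (s m) + s m * 3 - F m = 0 := hm0
    linarith
  refine ⟨m, s m, a, b, hm.1, hm.2, k4, k5, ha, hb, by rw [hFm]; exact k3, ?_, ?_⟩
  · rw [hFm]
    simp only [hF, one_div_one_div]
    show 1 / φ m + (u + v - 1 / φ m) = u + v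
    ring
  · rw [hFm]
    have F0 : F m ≠ 0 := by linarith
    have : s m / F m ^ 2 = A - m / (φ m) ^ 2 := by
      simp only [hs]; field_simp
    rw [this]
    show m / φ m ^ 2 + (A - m / φ m ^ 2) = A
    ring

/-- The concrete transition. -/
theorem zone_concrete : ∃ A B : ℝ → ℝ, (∀ x, LocSupp A x) ∧ (∀ x, LocSupp B x) ∧
    (∀ x, 0 < A x) ∧ (∀ x, 0 < B x) ∧
    (∀ x, 1 / A x + 1 / B x = 1 / f x + 1 / g x) ∧ (∀ x, x ≤ 1 / 2 → A x = f x ∧ B x = g x) ∧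
    (∀ x, 8 ≤ x → A x = g x ∧ B x = f x) := by
  obtain ⟨m, s, a, b, hm1, hm2, hs1, hs2, ha, hb, h67, e1, e2⟩ := h.matching
  obtain ⟨α, α1, α2, α3, α4⟩ := h.exists_alpha hm1 hm2
  obtain ⟨β, β1, β2, β3, β4⟩ := h.exists_beta (m := s) (by linarith) hs2
  obtain ⟨A, B, r1, r2, r3, r4, r5, r6, r7⟩ := zone_abstract h.fc h.gc h.f0 h.g0 h.fs h.gs
    (α := α) (γ := 3) (β := β) (c := cfun g m) (m := m) (d := cfun g s) (s := s) (a₀ := a)
    (b₀ := b) (by linarith) (by linarith) α3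
    (by
      filter_upwards [Ioo_mem_nhds (show (0 : ℝ) < α by linarith) (show α < 9 by linarith)]
        with y hy
      exact h.cfun_le m hy.1.le hy.2.le)
    β3
    (by
      filter_upwards [Ioo_mem_nhds (show (0 : ℝ) < β by linarith) (show β < 9 by linarith)]
        with y hy
      exact h.cfun_le s hy.1.le hy.2.le)
    (fun x h1 h2 => h.zone_left hm1 hm2 α1 α3 α4 x h1 h2)
    (fun x h1 h2 => h.zone_right hs1 β2 β3 h67 β4 x h1 h2) ha hb e1 e2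
  exact ⟨A, B, r1, r2, r3, r4, r5, fun x hx => r6 x (by linarith), fun x hx => r7 x (by linarith)⟩

end Near

end Pool.Agent.Lib.MP_0b6b0e_gt
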