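import Mathlib
import Pool.Agent.Lib.MP_0b6b0e_gt.Matching

/-! The pair of functions on the whole line. -/

set_option autoImplicit false

open Metric Set Topology Filter

namespace Pool.Agent.Lib.MP_0b6b0e_gt

lemma LocSupp.comp_neg {F : ℝ → ℝ} {x : ℝ} (h : LocSupp F (-x)) : LocSupp (fun y => F (-y)) x := by
  obtain ⟨hc, s, hs⟩ := h
  have hneg : Tendsto (fun y : ℝ => -y) (𝓝 x) (𝓝 (-x)) := continuous_neg.continuousAt.tendsto
  refine ⟨ContinuousAt.comp (f := fun y : ℝ => -y) hc continuous_neg.continuousAt, -s, ?_⟩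
  filter_upwards [hneg.eventually hs] with y hy
  have : s * (-y - -x) = -s * (y - x) := by ring
  rw [← this]
  exact hy

theorem exists_pair {f g : ℝ → ℝ} (h₁ : Near f g)
    (h₂ : Near (fun x => f (-x)) (fun x => g (-x))) :
    ∃ F G : ℝ → ℝ, (∀ x, LocSupp F x) ∧ (∀ x, LocSupp G x) ∧ (∀ x, 0 < F x) ∧ (∀ x, 0 < G x) ∧
      (∀ x, 1 / F x + 1 / G x = 1 / f x + 1 / g x) ∧
      (∀ x, 8 ≤ |x| → F x = f x ∧ G x = g x) ∧ F 0 = g 0 ∧ G 0 = f 0 := by
  obtain ⟨A, B, a1, a2, a3, a4, a5, a6, a7⟩ := h₁.zone_concrete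
  obtain ⟨A', B', b1, b2, b3, b4, b5, b6, b7⟩ := h₂.zone_concrete
  have lsf : ∀ x, LocSupp f x := fun x => by
    obtain ⟨a, ha⟩ := h₁.fs x
    exact ⟨h₁.fc.continuousAt, a, Eventually.of_forall ha⟩
  have lsg : ∀ x, LocSupp g x := fun x => by
    obtain ⟨a, ha⟩ := h₁.gs x
    exact ⟨h₁.gc.continuousAt, a, Eventually.of_forall ha⟩
  refine ⟨fun x => if x ≤ 0 then B' (-x) else B x, fun x => if x ≤ 0 then A' (-x) else A x,
    ?_, ?_, ?_, ?_, ?_, ?_, ?_, ?_⟩
  · intro x
    rcases lt_trichotomy x 0 with h | h | h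
    · exact locSupp_glue_lt (u := fun x => B' (-x)) h (b2 (-x)).comp_neg
    · subst h
      refine (lsg 0).congr ?_
      filter_upwards [Ioo_mem_nhds (show (-(1 / 2) : ℝ) < 0 by norm_num)
        (show (0 : ℝ) < 1 / 2 by norm_num)] with y hy
      have h1 := (a6 y hy.2.le).2
      have h2 := (b6 (-y) (by linarith [hy.1])).2
      simp only [neg_neg] at h2
      split_ifs
      · exact h2
      · exact h1
    · exact locSupp_glue_gt (v := B) h (a2 x)
  · intro x
    rcases lt_trichotomy x 0 with h | h | h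
    · exact locSupp_glue_lt (u := fun x => A' (-x)) h (b1 (-x)).comp_neg
    · subst h
      refine (lsf 0).congr ?_
      filter_upwards [Ioo_mem_nhds (show (-(1 / 2) : ℝ) < 0 by norm_num)
        (show (0 : ℝ) < 1 / 2 by norm_num)] with y hy
      have h1 := (a6 y hy.2.le).1
      have h2 := (b6 (-y) (by linarith [hy.1])).1
      simp only [neg_neg] at h2
      split_ifs
      · exact h2
      · exact h1
    · exact locSupp_glue_gt (v := A) h (a1 x)
  · intro x; simp only; split_ifs
    · exact b4 _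
    · exact a4 _
  · intro x; simp only; split_ifs
    · exact b3 _
    · exact a3 _
  · intro x; simp only; split_ifs
    · have := b5 (-x)
      simp only [neg_neg] at this
      linarith
    · have := a5 x; linarith
  · intro x hx
    rcases le_total x 0 with h | h
    · rw [abs_of_nonpos h] at hx
      have := b7 (-x) hx
      simp only [neg_neg] at this
      simp only [h, if_true]
      exact ⟨this.2, this.1⟩
    · rw [abs_of_nonneg h] at hx
      have h0 : ¬ x ≤ 0 := by linarith
      have := a7 x hx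
      simp only [h0, if_false]
      exact ⟨this.2, this.1⟩
  · have := (b6 0 (by norm_num)).2
    simp only [neg_zero] at this
    simp [this]
  · have := (b6 0 (by norm_num)).1
    simp only [neg_zero] at this
    simp [this]

end Pool.Agent.Lib.MP_0b6b0e_gt
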