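import Mathlib
import Pool.Agent.Lib.MP_0b6b0e_gt.Pair
import Pool.Agent.Lib.MP_0b6b0e_gt.Gauge

/-! Gluing the pair of functions to a planar convex body. -/

set_option autoImplicit false

open Metric Set Topology Filter
open scoped Pointwise

namespace Pool.Agent.Lib.MP_0b6b0e_gt

/-- the plane -/
abbrev E2 := EuclideanSpace ℝ (Fin 2)

/-- point with given coordinates -/
noncomputable def pt (x y : ℝ) : E2 := WithLp.toLp 2 ![x, y]

@[simp] lemma pt_zero (x y : ℝ) : pt x y 0 = x := rfl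
@[simp] lemma pt_one (x y : ℝ) : pt x y 1 = y := rfl

lemma pt_eta (v : E2) : pt (v 0) (v 1) = v := by
  ext i
  fin_cases i <;> rfl

lemma smul_pt (t x y : ℝ) : t • pt x y = pt (t * x) (t * y) := by
  ext i
  fin_cases i <;> simp [pt]

lemma neg_pt (x y : ℝ) : - pt x y = pt (-x) (-y) := by
  ext i
  fin_cases i <;> simp [pt]

lemma pt_ne_zero {x y : ℝ} (h : y ≠ 0) : pt x y ≠ 0 := by
  intro h0
  apply h
  have := congrArg (fun v : E2 => v 1) h0
  simpa using this

lemma continuous_coord (i : Fin 2) : Continuous (fun v : E2 => v i) := by fun_prop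

/-- glued gauge function -/
noncomputable def ell (k : E2 → ℝ) (F G : ℝ → ℝ) (v : E2) : ℝ :=
  if 0 < v 1 then v 1 * F (v 0 / v 1) else if v 1 < 0 then (-v 1) * G (v 0 / v 1) else k v

section

variable {k : E2 → ℝ} {F G : ℝ → ℝ}

lemma ell_pos_eq {v : E2} (h : 0 < v 1) : ell k F G v = v 1 * F (v 0 / v 1) := by
  unfold ell; simp [h]

lemma ell_neg_eq {v : E2} (h : v 1 < 0) : ell k F G v = (-v 1) * G (v 0 / v 1) := by
  unfold ell; simp [h, not_lt.2 h.le]

lemma ell_zero_eq {v : E2} (h : v 1 = 0) : ell k F G v = k v := by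
  unfold ell; simp [h]

/-- hypotheses for gluing -/
structure GlueData (k : E2 → ℝ) (F G : ℝ → ℝ) : Prop where
  kc : Continuous k
  khom : ∀ (t : ℝ) (v : E2), 0 < t → k (t • v) = t * k v
  k0 : k 0 = 0
  kpos : ∀ v, v ≠ 0 → 0 < k v
  kadd : ∀ v w, k (v + w) ≤ k v + k w
  Fs : ∀ x, LocSupp F x
  Gs : ∀ x, LocSupp G x
  F0 : ∀ x, 0 < F x
  G0 : ∀ x, 0 < G x
  sum : ∀ x, 1 / F x + 1 / G x = 1 / k (pt x 1) + 1 / k (pt (-x) (-1))
  out : ∀ x, 8 ≤ |x| → F x = k (pt x 1) ∧ G x = k (pt (-x) (-1))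

variable (h : GlueData k F G)
include h

lemma GlueData.ell_hom (t : ℝ) (v : E2) (ht : 0 < t) : ell k F G (t • v) = t * ell k F G v := by
  have h0 : (t • v) 0 = t * v 0 := by simp
  have h1 : (t • v) 1 = t * v 1 := by simp
  have hr : (t * v 0) / (t * v 1) = v 0 / v 1 := by
    rw [mul_div_mul_left _ _ ht.ne']
  rcases lt_trichotomy (v 1) 0 with hv | hv | hv
  · have : (t • v) 1 < 0 := by rw [h1]; exact mul_neg_of_pos_of_neg ht hv
    rw [ell_neg_eq this, ell_neg_eq hv, h0, h1, hr]; ring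
  · have : (t • v) 1 = 0 := by rw [h1, hv, mul_zero]
    rw [ell_zero_eq this, ell_zero_eq hv, h.khom t v ht]
  · have : 0 < (t • v) 1 := by rw [h1]; exact mul_pos ht hv
    rw [ell_pos_eq this, ell_pos_eq hv, h0, h1, hr]; ring

lemma GlueData.ell_pos {v : E2} (hv : v ≠ 0) : 0 < ell k F G v := by
  rcases lt_trichotomy (v 1) 0 with h1 | h1 | h1
  · rw [ell_neg_eq h1]; exact mul_pos (by linarith) (h.G0 _)
  · rw [ell_zero_eq h1]; exact h.kpos v hv
  · rw [ell_pos_eq h1]; exact mul_pos h1 (h.F0 _)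

lemma GlueData.ell_at_zero : ell k F G 0 = 0 := by
  rw [ell_zero_eq (by simp)]; exact h.k0

/-- near the horizontal axis the glued function is `k` -/
lemma GlueData.ell_eq_k {v : E2} (hv : 8 * |v 1| ≤ |v 0|) : ell k F G v = k v := by
  rcases lt_trichotomy (v 1) 0 with h1 | h1 | h1
  · have habs : 8 ≤ |v 0 / v 1| := by
      rw [abs_div, le_div_iff₀ (abs_pos.2 h1.ne)]; exact hv
    rw [ell_neg_eq h1, (h.out _ habs).2, ← h.khom _ _ (by linarith : 0 < -v 1), smul_pt]
    have e0 : -v 1 * -(v 0 / v 1) = v 0 := by have := h1.ne; field_simp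
    have e1 : -v 1 * -1 = v 1 := by ring
    rw [e0, e1, pt_eta]
  · exact ell_zero_eq h1
  · have habs : 8 ≤ |v 0 / v 1| := by
      rw [abs_div, le_div_iff₀ (abs_pos.2 h1.ne')]; exact hv
    rw [ell_pos_eq h1, (h.out _ habs).1, ← h.khom _ _ h1, smul_pt]
    have e0 : v 1 * (v 0 / v 1) = v 0 := by have := h1.ne'; field_simp
    rw [e0, mul_one, pt_eta]

lemma GlueData.eventually_k {v : E2} (hv : v ≠ 0) (h1 : v 1 = 0) :
    ell k F G =ᶠ[𝓝 v] k := by
  have h0 : v 0 ≠ 0 := by
    intro h0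
    apply hv
    rw [← pt_eta v, h0, h1]
    ext i; fin_cases i <;> simp [pt]
  have hc : ContinuousAt (fun w : E2 => |w 0| - 8 * |w 1|) v := by fun_prop
  have hpos : 0 < |v 0| - 8 * |v 1| := by rw [h1]; simpa using h0
  filter_upwards [hc.eventually (lt_mem_nhds hpos)] with w hw
  exact h.ell_eq_k (by linarith)

lemma GlueData.ell_sum (v : E2) :
    1 / ell k F G v + 1 / ell k F G (-v) = 1 / k v + 1 / k (-v) := by
  -- reduce to positive second coordinate
  have main : ∀ w : E2, 0 < w 1 →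
      1 / ell k F G w + 1 / ell k F G (-w) = 1 / k w + 1 / k (-w) := by
    intro w hw
    have hn : (-w) 1 < 0 := by
      have : (-w) 1 = - w 1 := by simp
      rw [this]; linarith
    have hn0 : (-w) 0 = - w 0 := by simp
    have hn1 : (-w) 1 = - w 1 := by simp
    rw [ell_pos_eq hw, ell_neg_eq hn, hn0, hn1, neg_neg, neg_div_neg_eq]
    have e1 : k w = w 1 * k (pt (w 0 / w 1) 1) := by
      rw [← h.khom _ _ hw, smul_pt]
      have e0 : w 1 * (w 0 / w 1) = w 0 := by have := hw.ne'; field_simp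
      rw [e0, mul_one, pt_eta]
    have e2 : k (-w) = w 1 * k (pt (-(w 0 / w 1)) (-1)) := by
      rw [← h.khom _ _ hw, smul_pt]
      have e0 : w 1 * -(w 0 / w 1) = - w 0 := by have := hw.ne'; field_simp
      rw [e0]
      have e3 : w 1 * -1 = - w 1 := by ring
      rw [e3, ← neg_pt, pt_eta]
    have hs := h.sum (w 0 / w 1)
    rw [e1, e2]
    simp only [one_div, mul_inv] at hs ⊢
    rw [← mul_add, ← mul_add, hs]
  rcases lt_trichotomy (v 1) 0 with h1 | h1 | h1
  · have := main (-v) (by simpa using h1)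
    rw [neg_neg] at this
    linarith
  · have hn1 : (-v) 1 = 0 := by simp [h1]
    rw [ell_zero_eq h1, ell_zero_eq hn1]
  · exact main v h1

lemma GlueData.ell_continuousAt {v : E2} (hv : v ≠ 0) : ContinuousAt (ell k F G) v := by
  rcases lt_trichotomy (v 1) 0 with h1 | h1 | h1
  · have hev : ell k F G =ᶠ[𝓝 v] fun w => (-w 1) * G (w 0 / w 1) := by
      have hc : ContinuousAt (fun w : E2 => w 1) v := by fun_prop
      filter_upwards [hc.eventually (gt_mem_nhds h1)] with w hw
      exact ell_neg_eq hw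
    refine ContinuousAt.congr ?_ hev.symm
    have hq : ContinuousAt (fun w : E2 => w 0 / w 1) v :=
      ContinuousAt.div (by fun_prop) (by fun_prop) h1.ne
    have hG : ContinuousAt (fun w : E2 => G (w 0 / w 1)) v :=
      ContinuousAt.comp (f := fun w : E2 => w 0 / w 1) (h.Gs _).1 hq
    exact ContinuousAt.mul (by fun_prop) hG
  · exact h.kc.continuousAt.congr (h.eventually_k hv h1).symm
  · have hev : ell k F G =ᶠ[𝓝 v] fun w => (w 1) * F (w 0 / w 1) := by
      have hc : ContinuousAt (fun w : E2 => w 1) v := by fun_prop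
      filter_upwards [hc.eventually (lt_mem_nhds h1)] with w hw
      exact ell_pos_eq hw
    refine ContinuousAt.congr ?_ hev.symm
    have hq : ContinuousAt (fun w : E2 => w 0 / w 1) v :=
      ContinuousAt.div (by fun_prop) (by fun_prop) h1.ne'
    have hF : ContinuousAt (fun w : E2 => F (w 0 / w 1)) v :=
      ContinuousAt.comp (f := fun w : E2 => w 0 / w 1) (h.Fs _).1 hq
    exact ContinuousAt.mul (by fun_prop) hF

/-- convexity of `k` on lines -/
lemma GlueData.k_line_support (v w : E2) :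
    ∃ s : ℝ, ∀ t : ℝ, k v + s * t ≤ k (v + t • w) := by
  have hconv : ConvexOn ℝ univ (fun t : ℝ => k (v + t • w)) := by
    refine ⟨convex_univ, fun t₁ _ t₂ _ a b ha hb hab => ?_⟩
    have e : v + (a • t₁ + b • t₂) • w = a • (v + t₁ • w) + b • (v + t₂ • w) := by
      have : v = (a + b) • v := by rw [hab, one_smul]
      conv_lhs => rw [this]
      simp only [smul_eq_mul, add_smul, smul_add, mul_smul]
      abel
    show k (v + (a • t₁ + b • t₂) • w) ≤ a • k (v + t₁ • w) + b • k (v + t₂ • w)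
    rw [e]
    refine (h.kadd _ _).trans ?_
    have hs : ∀ (c : ℝ) (u : E2), 0 ≤ c → k (c • u) = c * k u := by
      intro c u hc
      rcases hc.eq_or_lt with h0 | h0
      · rw [← h0, zero_smul, zero_mul, h.k0]
      · exact h.khom c u h0
    rw [hs a _ ha, hs b _ hb]
    rfl
  obtain ⟨s, hs⟩ := exists_support hconv 0
  refine ⟨s, fun t => ?_⟩
  have := hs t
  simpa using this

lemma GlueData.ell_line {v : E2} (hv : v ≠ 0) (w : E2) :
    LocSupp (fun t : ℝ => ell k F G (v + t • w)) 0 := by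
  have hline : ContinuousAt (fun t : ℝ => v + t • w) 0 := by fun_prop
  have hv0 : v + (0 : ℝ) • w = v := by simp
  have hcont : ContinuousAt (fun t : ℝ => ell k F G (v + t • w)) 0 := by
    apply ContinuousAt.comp (f := fun t : ℝ => v + t • w) (g := ell k F G)
    · simp only [hv0]; exact h.ell_continuousAt hv
    · exact hline
  refine ⟨hcont, ?_⟩
  have hlt : Tendsto (fun t : ℝ => v + t • w) (𝓝 0) (𝓝 v) := by
    have := hline.tendsto
    simpa using this
  have c0 : ∀ t : ℝ, (v + t • w) 0 = v 0 + t * w 0 := fun t => by simp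
  have c1 : ∀ t : ℝ, (v + t • w) 1 = v 1 + t * w 1 := fun t => by simp
  rcases lt_trichotomy (v 1) 0 with h1 | h1 | h1
  · obtain ⟨hGc, σ, hσ⟩ := h.Gs (v 0 / v 1)
    have hq : Tendsto (fun u : E2 => u 0 / u 1) (𝓝 v) (𝓝 (v 0 / v 1)) :=
      (ContinuousAt.div (by fun_prop) (by fun_prop) h1.ne : ContinuousAt
        (fun u : E2 => u 0 / u 1) v).tendsto
    have hc : ContinuousAt (fun u : E2 => u 1) v := by fun_prop
    have ev1 := hlt.eventually (hq.eventually hσ)
    have ev2 := hlt.eventually (hc.eventually (gt_mem_nhds h1))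
    refine ⟨-(w 1 * (G (v 0 / v 1) - σ * (v 0 / v 1)) + σ * w 0), ?_⟩
    filter_upwards [ev1, ev2] with t e1 e2
    rw [hv0, ell_neg_eq h1, ell_neg_eq e2, c0 t, c1 t]
    rw [c1 t] at e2
    rw [c0 t, c1 t] at e1
    have e3 := mul_le_mul_of_nonneg_left e1 (show 0 ≤ -(v 1 + t * w 1) by linarith)
    refine le_trans (le_of_eq ?_) e3
    have hne : (v 0 + t * w 0) / (v 1 + t * w 1) * (v 1 + t * w 1) = v 0 + t * w 0 :=
      div_mul_cancel₀ _ e2.ne
    have hne' : v 0 / v 1 * v 1 = v 0 := div_mul_cancel₀ _ h1.ne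
    linear_combination σ * hne - σ * hne'
  · have hev := h.eventually_k hv h1
    obtain ⟨s, hs⟩ := h.k_line_support v w
    refine ⟨s, ?_⟩
    filter_upwards [hlt.eventually hev] with t ht
    rw [hv0, ht, hev.eq_of_nhds, sub_zero]
    exact hs t
  · obtain ⟨hFc, σ, hσ⟩ := h.Fs (v 0 / v 1)
    have hq : Tendsto (fun u : E2 => u 0 / u 1) (𝓝 v) (𝓝 (v 0 / v 1)) :=
      (ContinuousAt.div (by fun_prop) (by fun_prop) h1.ne' : ContinuousAt
        (fun u : E2 => u 0 / u 1) v).tendsto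
    have hc : ContinuousAt (fun u : E2 => u 1) v := by fun_prop
    have ev1 := hlt.eventually (hq.eventually hσ)
    have ev2 := hlt.eventually (hc.eventually (lt_mem_nhds h1))
    refine ⟨w 1 * (F (v 0 / v 1) - σ * (v 0 / v 1)) + σ * w 0, ?_⟩
    filter_upwards [ev1, ev2] with t e1 e2
    rw [hv0, ell_pos_eq h1, ell_pos_eq e2, c0 t, c1 t]
    rw [c1 t] at e2
    rw [c0 t, c1 t] at e1
    have e3 := mul_le_mul_of_nonneg_left e1 (show 0 ≤ (v 1 + t * w 1) by linarith)
    refine le_trans (le_of_eq ?_) e3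
    have hne : (v 0 + t * w 0) / (v 1 + t * w 1) * (v 1 + t * w 1) = v 0 + t * w 0 :=
      div_mul_cancel₀ _ e2.ne'
    have hne' : v 0 / v 1 * v 1 = v 0 := div_mul_cancel₀ _ h1.ne'
    linear_combination -σ * hne + σ * hne'

end

end Pool.Agent.Lib.MP_0b6b0e_gt
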