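import Mathlib
import Pool.Agent.Lib.MP_0b6b0e_gt.Planar

/-! The glued convex body and its sections. -/

set_option autoImplicit false

open Metric Set Topology Filter MeasureTheory
open scoped Pointwise

namespace Pool.Agent.Lib.MP_0b6b0e_gt

lemma LocSupp.of_shift {H : ℝ → ℝ} {t : ℝ} (h : LocSupp (fun τ => H (t + τ)) 0) : LocSupp H t := by
  obtain ⟨hc, s, hs⟩ := h
  have hsub : Tendsto (fun y : ℝ => y - t) (𝓝 t) (𝓝 0) := by
    have : ContinuousAt (fun y : ℝ => y - t) t := by fun_prop
    simpa using this.tendsto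
  refine ⟨?_, s, ?_⟩
  · have h1 : Tendsto (fun τ => H (t + τ)) (𝓝 0) (𝓝 (H t)) := by
      have := hc.tendsto
      simpa using this
    have h2 := h1.comp hsub
    refine Tendsto.congr (fun y => ?_) h2
    simp
  · filter_upwards [hsub.eventually hs] with y hy
    simpa using hy

section

variable {k : E2 → ℝ} {F G : ℝ → ℝ} (h : GlueData k F G)
include h

lemma GlueData.ell_smul_le {v : E2} (hv : ell k F G v ≤ 1) {c : ℝ} (hc0 : 0 ≤ c) (hc1 : c ≤ 1) :
    ell k F G (c • v) ≤ 1 := by
  rcases hc0.eq_or_lt with h0 | h0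
  · rw [← h0, zero_smul, h.ell_at_zero]; exact zero_le_one
  · rw [h.ell_hom c v h0]
    have h1 : 0 ≤ ell k F G v := by
      rcases eq_or_ne v 0 with rfl | hne
      · rw [h.ell_at_zero]
      · exact (h.ell_pos hne).le
    nlinarith

lemma GlueData.quasi {v w : E2} (hv : ell k F G v ≤ 1) (hw : ell k F G w ≤ 1) {b : ℝ}
    (hb0 : 0 ≤ b) (hb1 : b ≤ 1) : ell k F G (v + b • (w - v)) ≤ 1 := by
  by_cases hz : ∃ t₀ : ℝ, 0 ≤ t₀ ∧ t₀ ≤ 1 ∧ v + t₀ • (w - v) = 0
  · obtain ⟨t₀, h0, h1, hz⟩ := hz
    rcases le_or_gt b t₀ with hbt | hbt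
    · rcases h0.eq_or_lt with h2 | h2
      · have hb : b = 0 := le_antisymm (by linarith) hb0
        rw [hb, zero_smul, add_zero]; exact hv
      · have e : v + b • (w - v) = ((t₀ - b) / t₀) • v := by
          have e1 : w - v = -(t₀⁻¹ • v) := by
            have : t₀ • (w - v) = -v := by
              rw [add_comm] at hz; exact eq_neg_of_add_eq_zero_left hz
            calc w - v = t₀⁻¹ • (t₀ • (w - v)) := by
                  rw [smul_smul, inv_mul_cancel₀ h2.ne', one_smul]
              _ = -(t₀⁻¹ • v) := by rw [this, smul_neg]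
          rw [e1, smul_neg, smul_smul, ← sub_eq_add_neg]
          have : v - (b * t₀⁻¹) • v = (1 - b * t₀⁻¹) • v := by rw [sub_smul, one_smul]
          rw [this]
          congr 1
          field_simp
        rw [e]
        apply h.ell_smul_le hv
        · apply div_nonneg <;> linarith
        · rw [div_le_one h2]; linarith
    · have h2 : 0 < 1 - t₀ := by linarith
      have e : v + b • (w - v) = ((b - t₀) / (1 - t₀)) • w := by
        have e0 : w + (t₀ - 1) • (w - v) = 0 := by
          have : w + (t₀ - 1) • (w - v) = v + t₀ • (w - v) := by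
            rw [sub_smul, one_smul]; abel
          rw [this, hz]
        have e1 : w - v = (1 - t₀)⁻¹ • w := by
          have : (1 - t₀) • (w - v) = w := by
            have e2 : (t₀ - 1) • (w - v) = -((1 - t₀) • (w - v)) := by
              rw [← neg_smul]; congr 1; ring
            rw [e2, ← sub_eq_add_neg] at e0
            exact (sub_eq_zero.1 e0).symm
          calc w - v = (1 - t₀)⁻¹ • ((1 - t₀) • (w - v)) := by
                rw [smul_smul, inv_mul_cancel₀ h2.ne', one_smul]
            _ = _ := by rw [this]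
        have e3 : v + b • (w - v) = w + (b - 1) • (w - v) := by
          rw [sub_smul, one_smul]; abel
        rw [e3, e1, smul_smul]
        have : w + ((b - 1) * (1 - t₀)⁻¹) • w = (1 + (b - 1) * (1 - t₀)⁻¹) • w := by
          rw [add_smul, one_smul]
        rw [this]
        congr 1
        field_simp
        ring
      rw [e]
      apply h.ell_smul_le hw
      · apply div_nonneg <;> linarith
      · rw [div_le_one h2]; linarith
  · push Not at hz
    have hls : ∀ t ∈ Icc (0 : ℝ) 1, LocSupp (fun t => ell k F G (v + t • (w - v))) t := by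
      intro t ht
      apply LocSupp.of_shift
      have := h.ell_line (hz t ht.1 ht.2) (w - v)
      refine this.congr (Eventually.of_forall fun τ => ?_)
      show ell k F G (v + (t + τ) • (w - v)) = ell k F G (v + t • (w - v) + τ • (w - v))
      rw [add_smul, add_assoc]
    have := le_max_of_locSupp (h := fun t => ell k F G (v + t • (w - v))) (a := 0) (b := 1)
      (fun t ht => (hls t ht).1.continuousWithinAt)
      (fun t ht => hls t ⟨ht.1.le, ht.2.le⟩) (t := b) ⟨hb0, hb1⟩
    refine this.trans (max_le ?_ ?_)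
    · simpa using hv
    · simpa using hw

lemma GlueData.sphere_bounds : ∃ c C : ℝ, 0 < c ∧ 0 < C ∧ ∀ v : E2, c * ‖v‖ ≤ ell k F G v ∧
    ell k F G v ≤ C * ‖v‖ := by
  have hcont : ContinuousOn (ell k F G) (sphere (0 : E2) 1) := by
    intro v hv
    have hne : v ≠ 0 := by
      rintro rfl
      simp at hv
    exact (h.ell_continuousAt hne).continuousWithinAt
  have hne : (sphere (0 : E2) 1).Nonempty := by
    refine ⟨EuclideanSpace.single 0 1, ?_⟩
    simp
  obtain ⟨p, hp, hpmin⟩ := (isCompact_sphere (0 : E2) 1).exists_isMinOn hne hcont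
  obtain ⟨q, hq, hqmax⟩ := (isCompact_sphere (0 : E2) 1).exists_isMaxOn hne hcont
  have hp0 : p ≠ 0 := by rintro rfl; simp at hp
  have hq0 : q ≠ 0 := by rintro rfl; simp at hq
  refine ⟨ell k F G p, ell k F G q, h.ell_pos hp0, h.ell_pos hq0, fun v => ?_⟩
  rcases eq_or_ne v 0 with rfl | hv
  · simp [h.ell_at_zero]
  · have hn : 0 < ‖v‖ := norm_pos_iff.2 hv
    have hs : ‖v‖⁻¹ • v ∈ sphere (0 : E2) 1 := by
      rw [mem_sphere_zero_iff_norm, norm_smul, norm_inv, norm_norm, inv_mul_cancel₀ hn.ne']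
    have h1 : ell k F G p ≤ ell k F G (‖v‖⁻¹ • v) := hpmin hs
    have h2 : ell k F G (‖v‖⁻¹ • v) ≤ ell k F G q := hqmax hs
    rw [h.ell_hom _ _ (inv_pos.2 hn)] at h1 h2
    constructor
    · rw [← le_div_iff₀ hn, div_eq_inv_mul]; exact h1
    · rw [← div_le_iff₀ hn, div_eq_inv_mul]; exact h2

lemma GlueData.exists_body : ∃ L : ConvexBody E2, (∀ v, v ∈ (L : Set E2) ↔ ell k F G v ≤ 1) ∧
    (0 : E2) ∈ interior (L : Set E2) := by
  obtain ⟨c, C, hc, hC, hbd⟩ := h.sphere_bounds
  have hclosed : IsClosed {v | ell k F G v ≤ 1} := by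
    rw [← isOpen_compl_iff, isOpen_iff_mem_nhds]
    intro v hv
    have hv1 : 1 < ell k F G v := not_le.1 hv
    have hne : v ≠ 0 := by
      rintro rfl
      rw [h.ell_at_zero] at hv1
      linarith
    filter_upwards [(h.ell_continuousAt hne).eventually (lt_mem_nhds hv1)] with w hw
    exact not_le.2 hw
  have hbdd : Bornology.IsBounded {v | ell k F G v ≤ 1} := by
    refine (isBounded_closedBall (x := (0 : E2)) (r := 1 / c)).subset fun v hv => ?_
    rw [mem_closedBall, dist_zero_right, le_div_iff₀ hc]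
    have h1 := (hbd v).1
    have h2 : ell k F G v ≤ 1 := hv
    linarith
  have hconv : Convex ℝ {v | ell k F G v ≤ 1} := by
    intro v hv w hw a b ha hb hab
    have := h.quasi (v := v) (w := w) hv hw hb (by linarith)
    have e : a • v + b • w = v + b • (w - v) := by
      have : a = 1 - b := by linarith
      rw [this, sub_smul, one_smul, smul_sub]; abel
    show ell k F G (a • v + b • w) ≤ 1
    rw [e]; exact this
  refine ⟨⟨{v | ell k F G v ≤ 1}, hconv, isCompact_of_isClosed_isBounded hclosed hbdd,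
    ⟨0, by show ell k F G 0 ≤ 1; rw [h.ell_at_zero]; exact zero_le_one⟩⟩, fun v => Iff.rfl, ?_⟩
  rw [mem_interior_iff_mem_nhds]
  refine mem_of_superset (ball_mem_nhds 0 (show 0 < 1 / C by positivity)) fun v hv => ?_
  rw [mem_ball, dist_zero_right, lt_div_iff₀ hC] at hv
  show ell k F G v ≤ 1
  have := (hbd v).2
  linarith

end

lemma section_eq_segment {r : E2 → ℝ} (hhom : ∀ (t : ℝ) (v : E2), 0 < t → r (t • v) = t * r v)
    (hpos : ∀ v, v ≠ 0 → 0 < r v) (h0 : r 0 = 0) {A : Set E2} (hA : ∀ v, v ∈ A ↔ r v ≤ 1)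
    {v : E2} (hv : v ≠ 0) {S : Submodule ℝ E2} (hS : ∀ w, w ∈ S ↔ ∃ c : ℝ, c • v = w) :
    A ∩ (S : Set E2) = segment ℝ ((-(1 / r (-v))) • v) ((1 / r v) • v) := by
  have hv' : -v ≠ 0 := neg_ne_zero.2 hv
  have p1 := hpos v hv
  have p2 := hpos (-v) hv'
  have himg : segment ℝ ((-(1 / r (-v))) • v) ((1 / r v) • v)
      = (fun t : ℝ => t • v) '' Icc (-(1 / r (-v))) (1 / r v) := by
    have hle : -(1 / r (-v)) ≤ 1 / r v := by
      have : 0 < 1 / r (-v) := by positivity
      have : 0 < 1 / r v := by positivity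
      linarith
    rw [← segment_eq_Icc hle]
    have := image_segment ℝ (LinearMap.toSpanSingleton ℝ E2 v).toAffineMap (-(1 / r (-v))) (1 / r v)
    exact this.symm
  rw [himg]
  ext w
  constructor
  · rintro ⟨hwA, hwS⟩
    obtain ⟨c, rfl⟩ := (hS w).1 hwS
    have hr : r (c • v) ≤ 1 := (hA _).1 hwA
    refine ⟨c, ⟨?_, ?_⟩, rfl⟩
    · rcases lt_or_ge c 0 with hc | hc
      · have e : c • v = (-c) • (-v) := by simp
        rw [e, hhom _ _ (by linarith)] at hr
        rw [neg_le, le_div_iff₀ p2]; exact hr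
      · have : 0 < 1 / r (-v) := by positivity
        linarith
    · rcases lt_or_ge 0 c with hc | hc
      · rw [hhom _ _ hc] at hr
        rw [le_div_iff₀ p1]; exact hr
      · have : 0 < 1 / r v := by positivity
        linarith
  · rintro ⟨c, ⟨hc1, hc2⟩, rfl⟩
    refine ⟨(hA _).2 ?_, (hS _).2 ⟨c, rfl⟩⟩
    show r (c • v) ≤ 1
    rcases lt_trichotomy c 0 with hc | hc | hc
    · have e : c • v = (-c) • (-v) := by simp
      rw [e, hhom _ _ (by linarith)]
      rw [neg_le, le_div_iff₀ p2] at hc1; exact hc1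
    · rw [hc, zero_smul, h0]; exact zero_le_one
    · rw [hhom _ _ hc]
      rw [le_div_iff₀ p1] at hc2; exact hc2

lemma section_measure {r : E2 → ℝ} (hhom : ∀ (t : ℝ) (v : E2), 0 < t → r (t • v) = t * r v)
    (hpos : ∀ v, v ≠ 0 → 0 < r v) (h0 : r 0 = 0) {A : Set E2} (hA : ∀ v, v ∈ A ↔ r v ≤ 1)
    {v : E2} (hv : v ≠ 0) {S : Submodule ℝ E2} (hS : ∀ w, w ∈ S ↔ ∃ c : ℝ, c • v = w) :
    Measure.hausdorffMeasure (1 : ℝ) (A ∩ (S : Set E2)) =
      ENNReal.ofReal ((1 / r v + 1 / r (-v)) * ‖v‖) := by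
  have p1 := hpos v hv
  have p2 := hpos (-v) (neg_ne_zero.2 hv)
  rw [section_eq_segment hhom hpos h0 hA hv hS, hausdorffMeasure_segment, edist_dist]
  congr 1
  rw [dist_eq_norm, ← sub_smul, norm_smul]
  congr 1
  have : -(1 / r (-v)) - 1 / r v = -(1 / r v + 1 / r (-v)) := by ring
  rw [this, norm_neg, Real.norm_of_nonneg (by positivity)]

end Pool.Agent.Lib.MP_0b6b0e_gt
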