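import Mathlib
import Pool.Agent.Lib.MP_0b6b0e_gt.Body
import Pool.Agent.Lib.MP_0b6b0e_gt.Baire

/-! The model heptagon and the final argument. -/

set_option autoImplicit false

open Metric Set Topology Filter MeasureTheory
open scoped Pointwise

namespace Pool.Agent.Lib.MP_0b6b0e_gt

/-- the gauge of the model heptagon -/
noncomputable def k0 (v : E2) : ℝ :=
  max (3 / 4 * (5 * v 1 + |v 0|)) (max (-6 * v 1) (max (-5 * v 1 + |v 0|)
    (-(11 / 5) * v 1 + 7 / 5 * |v 0|)))

lemma k0_nonneg (v : E2) : 0 ≤ k0 v := by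
  unfold k0
  rcases le_total 0 (v 1) with h | h
  · refine le_trans ?_ (le_max_left _ _)
    positivity
  · refine le_trans ?_ ((le_max_left _ _).trans (le_max_right _ _))
    linarith

lemma k0_hom (t : ℝ) (v : E2) (ht : 0 < t) : k0 (t • v) = t * k0 v := by
  have h0 : (t • v) 0 = t * v 0 := by simp
  have h1 : (t • v) 1 = t * v 1 := by simp
  unfold k0
  rw [h0, h1, abs_mul, abs_of_pos ht, mul_max_of_nonneg _ _ ht.le, mul_max_of_nonneg _ _ ht.le,
    mul_max_of_nonneg _ _ ht.le]
  congr 1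
  · ring
  · congr 1
    · ring
    · congr 1 <;> ring

lemma k0_continuous : Continuous k0 := by
  unfold k0; fun_prop

lemma k0_le_one_iff (v : E2) : k0 v ≤ 1 ↔ 3 / 4 * (5 * v 1 + |v 0|) ≤ 1 ∧ -6 * v 1 ≤ 1 ∧
    -5 * v 1 + |v 0| ≤ 1 ∧ -(11 / 5) * v 1 + 7 / 5 * |v 0| ≤ 1 := by
  unfold k0; simp only [max_le_iff]

/-- The model body. -/
noncomputable def K0 : ConvexBody E2 where
  carrier := {v | k0 v ≤ 1}
  convex' := by
    intro v hv w hw a b ha hb hab
    have hv' := (k0_le_one_iff v).1 hv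
    have hw' := (k0_le_one_iff w).1 hw
    have h0 : (a • v + b • w) 0 = a * v 0 + b * w 0 := by simp
    have h1 : (a • v + b • w) 1 = a * v 1 + b * w 1 := by simp
    have habs : |a * v 0 + b * w 0| ≤ a * |v 0| + b * |w 0| := by
      calc |a * v 0 + b * w 0| ≤ |a * v 0| + |b * w 0| := abs_add_le _ _
        _ = a * |v 0| + b * |w 0| := by rw [abs_mul, abs_mul, abs_of_nonneg ha, abs_of_nonneg hb]
    show k0 (a • v + b • w) ≤ 1
    rw [k0_le_one_iff, h0, h1]
    obtain ⟨v1, v2, v3, v4⟩ := hv'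
    obtain ⟨w1, w2, w3, w4⟩ := hw'
    have m1 := mul_le_mul_of_nonneg_left v1 ha
    have m2 := mul_le_mul_of_nonneg_left v2 ha
    have m3 := mul_le_mul_of_nonneg_left v3 ha
    have m4 := mul_le_mul_of_nonneg_left v4 ha
    have n1 := mul_le_mul_of_nonneg_left w1 hb
    have n2 := mul_le_mul_of_nonneg_left w2 hb
    have n3 := mul_le_mul_of_nonneg_left w3 hb
    have n4 := mul_le_mul_of_nonneg_left w4 hb
    refine ⟨?_, ?_, ?_, ?_⟩ <;> nlinarith
  isCompact' := by
    refine isCompact_of_isClosed_isBounded (isClosed_le k0_continuous continuous_const) ?_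
    refine (isBounded_closedBall (x := (0 : E2)) (r := 4)).subset fun v hv => ?_
    obtain ⟨v1, v2, v3, v4⟩ := (k0_le_one_iff v).1 hv
    rw [mem_closedBall, dist_zero_right, EuclideanSpace.norm_eq]
    rw [Real.sqrt_le_left (by norm_num)]
    rw [Fin.sum_univ_two]
    simp only [Real.norm_eq_abs, sq_abs]
    have a0 := abs_nonneg (v 0)
    have a1 : |v 0| ≤ 3 := by linarith
    have a2 : (v 0) ^ 2 ≤ 9 := by rw [← sq_abs]; nlinarith
    have a3 : -1 ≤ v 1 := by linarith
    have a4 : v 1 ≤ 1 := by linarith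
    nlinarith
  nonempty' := ⟨0, by
    show k0 0 ≤ 1
    rw [k0_le_one_iff]; simp⟩

lemma mem_K0 (v : E2) : v ∈ (K0 : Set E2) ↔ k0 v ≤ 1 := Iff.rfl

lemma closedBall_subset_K0 : closedBall (0 : E2) (1 / 20) ⊆ (K0 : Set E2) := by
  intro v hv
  rw [mem_closedBall, dist_zero_right] at hv
  have c0 : |v 0| ≤ 1 / 20 := by
    have := PiLp.norm_apply_le v 0
    rw [Real.norm_eq_abs] at this
    linarith
  have c1 : |v 1| ≤ 1 / 20 := by
    have := PiLp.norm_apply_le v 1
    rw [Real.norm_eq_abs] at this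
    linarith
  obtain ⟨d1, d2⟩ := abs_le.1 c1
  rw [mem_K0, k0_le_one_iff]
  refine ⟨?_, ?_, ?_, ?_⟩ <;> linarith

lemma K0_interior : (0 : E2) ∈ interior (K0 : Set E2) :=
  mem_interior_iff_mem_nhds.2 (mem_of_superset (closedBall_mem_nhds 0 (by norm_num))
    closedBall_subset_K0)

lemma gauge_K0 (v : E2) : gauge (K0 : Set E2) v = k0 v :=
  gauge_sublevel k0_nonneg k0_hom v

lemma k0_upper {x : ℝ} (h : |x| ≤ 9) : k0 (pt x 1) = 3 / 4 * (5 + |x|) := by
  have h0 := abs_nonneg x
  unfold k0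
  simp only [pt_zero, pt_one]
  rw [max_eq_left]
  · ring
  · simp only [max_le_iff]
    refine ⟨?_, ?_, ?_⟩ <;> linarith

lemma k0_lower {x : ℝ} : k0 (pt x (-1)) = gmod |x| := by
  have h0 := abs_nonneg x
  unfold k0 gmod
  simp only [pt_zero, pt_one]
  rw [max_eq_right]
  · congr 1
    · ring
    · congr 1 <;> ring
  · rcases le_total |x| 9 with h1 | h1
    · refine le_trans ?_ (le_max_left _ _)
      linarith
    · refine le_trans ?_ ((le_max_left _ _).trans (le_max_right _ _))
      linarith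

lemma gmod_le {x : ℝ} (h : x ≤ 9) : gmod x ≤ 15 := by
  unfold gmod
  simp only [max_le_iff]
  refine ⟨?_, ?_, ?_⟩ <;> linarith

/-- supports of a sublinear function on lines -/
lemma line_support {k : E2 → ℝ} (khom : ∀ (t : ℝ) (v : E2), 0 < t → k (t • v) = t * k v)
    (k0 : k 0 = 0) (kadd : ∀ v w, k (v + w) ≤ k v + k w) (v w : E2) :
    ∃ s : ℝ, ∀ t : ℝ, k v + s * t ≤ k (v + t • w) := by
  have hconv : ConvexOn ℝ univ (fun t : ℝ => k (v + t • w)) := by
    refine ⟨convex_univ, fun t₁ _ t₂ _ a b ha hb hab => ?_⟩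
    have e : v + (a • t₁ + b • t₂) • w = a • (v + t₁ • w) + b • (v + t₂ • w) := by
      have : v = (a + b) • v := by rw [hab, one_smul]
      conv_lhs => rw [this]
      simp only [smul_eq_mul, add_smul, smul_add, mul_smul]
      abel
    show k (v + (a • t₁ + b • t₂) • w) ≤ a • k (v + t₁ • w) + b • k (v + t₂ • w)
    rw [e]
    refine (kadd _ _).trans ?_
    have hs : ∀ (c : ℝ) (u : E2), 0 ≤ c → k (c • u) = c * k u := by
      intro c u hc
      rcases hc.eq_or_lt with h0 | h0
      · rw [← h0, zero_smul, zero_mul, k0]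
      · exact khom c u h0
    rw [hs a _ ha, hs b _ hb]
    rfl
  obtain ⟨s, hs⟩ := exists_support hconv 0
  refine ⟨s, fun t => ?_⟩
  have := hs t
  simpa using this

lemma pt_add_smul_e (x y t c : ℝ) : pt x y + t • pt c 0 = pt (x + t * c) y := by
  ext i
  fin_cases i <;> simp [pt]

section near

variable {K : ConvexBody E2}

lemma gauge_near (hK : (0 : E2) ∈ interior (K : Set E2))
    (hd : dist K K0 < 1 / 100000 * (1 / 20)) {v : E2} (hv : k0 v ≤ 15) :
    |gauge (K : Set E2) v - k0 v| ≤ 1 / 1000 := by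
  obtain ⟨h1, h2⟩ := gauge_close (K₀ := K0) (K := K) (r := 1 / 20) (ε := 1 / 100000)
    (by norm_num) (by norm_num) (by norm_num) closedBall_subset_K0 hK hd v
  rw [gauge_K0] at h1 h2
  have h0 : 0 ≤ gauge (K : Set E2) v := gauge_nonneg v
  rw [abs_le]
  constructor <;> linarith

/-- Bodies near the model satisfy the hypotheses of the transition lemma. -/
lemma near_of_dist (hK : (0 : E2) ∈ interior (K : Set E2))
    (hd : dist K K0 < 1 / 100000 * (1 / 20)) {σ : ℝ} (hσ : σ = 1 ∨ σ = -1) :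
    Near (fun x => gauge (K : Set E2) (pt (σ * x) 1))
      (fun x => gauge (K : Set E2) (pt (-(σ * x)) (-1))) := by
  have hσabs : |σ| = 1 := by rcases hσ with h | h <;> simp [h]
  have kc : Continuous (gauge (K : Set E2)) := continuous_gauge K.convex (body_nhds hK)
  have khom : ∀ (t : ℝ) (v : E2), 0 < t → gauge (K : Set E2) (t • v)
      = t * gauge (K : Set E2) v := by
    intro t v ht
    rw [gauge_smul_of_nonneg ht.le, smul_eq_mul]
  have kadd : ∀ v w, gauge (K : Set E2) (v + w) ≤ gauge (K : Set E2) v + gauge (K : Set E2) w :=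
    fun v w => gauge_add_le K.convex (absorbent_nhds_zero (body_nhds hK)) v w
  have ptc : ∀ c y : ℝ, Continuous (fun x : ℝ => pt (c * x) y) := by
    intro c y
    unfold pt
    fun_prop
  refine ⟨kc.comp (ptc σ 1), ?_, fun x => body_gauge_pos hK (pt_ne_zero (by norm_num)),
    fun x => body_gauge_pos hK (pt_ne_zero (by norm_num)), ?_, ?_, ?_, ?_⟩
  · have := kc.comp (ptc (-σ) (-1))
    refine this.congr fun x => ?_
    simp
  · intro x
    obtain ⟨s, hs⟩ := line_support khom (gauge_zero) kadd (pt (σ * x) 1) (pt σ 0)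
    refine ⟨s, fun y => ?_⟩
    have := hs (y - x)
    rw [pt_add_smul_e] at this
    have e : σ * x + (y - x) * σ = σ * y := by ring
    rw [e] at this
    exact this
  · intro x
    obtain ⟨s, hs⟩ := line_support khom (gauge_zero) kadd (pt (-(σ * x)) (-1)) (pt (-σ) 0)
    refine ⟨s, fun y => ?_⟩
    have := hs (y - x)
    rw [pt_add_smul_e] at this
    have e : -(σ * x) + (y - x) * -σ = -(σ * y) := by ring
    rw [e] at this
    exact this
  · intro x h0 h9
    have habs : |σ * x| = x := by rw [abs_mul, hσabs, one_mul, abs_of_nonneg h0]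
    have e : k0 (pt (σ * x) 1) = 3 / 4 * (5 + x) := by
      rw [k0_upper (by rw [habs]; exact h9), habs]
    rw [← e]
    apply gauge_near hK hd
    rw [e]; linarith
  · intro x h0 h9
    have habs : |-(σ * x)| = x := by rw [abs_neg, abs_mul, hσabs, one_mul, abs_of_nonneg h0]
    have e : k0 (pt (-(σ * x)) (-1)) = gmod x := by
      rw [k0_lower, habs]
    rw [← e]
    apply gauge_near hK hd
    rw [e]; exact gmod_le h9

/-- The main construction. -/
theorem main_construction (hK : (0 : E2) ∈ interior (K : Set E2))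
    (hd : dist K K0 < 1 / 100000 * (1 / 20)) :
    ∃ L : ConvexBody E2, (0 : E2) ∈ interior (L : Set E2) ∧ (L : Set E2) ≠ (K : Set E2) ∧
      (L : Set E2) ≠ -(K : Set E2) ∧
      ∀ S : Submodule ℝ E2, Module.finrank ℝ S = 1 →
        Measure.hausdorffMeasure (1 : ℝ) ((L : Set E2) ∩ (S : Set E2)) =
          Measure.hausdorffMeasure (1 : ℝ) ((K : Set E2) ∩ (S : Set E2)) := by
  set k : E2 → ℝ := gauge (K : Set E2) with hk
  have n1 := near_of_dist hK hd (σ := 1) (Or.inl rfl)
  have n2 := near_of_dist hK hd (σ := -1) (Or.inr rfl)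
  simp only [one_mul] at n1
  have n2' : Near (fun x => (fun x => k (pt x 1)) (-x)) (fun x => (fun x => k (pt (-x) (-1))) (-x)) := by
    simpa using n2
  obtain ⟨F, G, r1, r2, r3, r4, r5, r6, r7, r8⟩ := exists_pair n1 n2'
  have kc : Continuous k := continuous_gauge K.convex (body_nhds hK)
  have khom : ∀ (t : ℝ) (v : E2), 0 < t → k (t • v) = t * k v := by
    intro t v ht
    rw [hk, gauge_smul_of_nonneg ht.le, smul_eq_mul]
  have kadd : ∀ v w, k (v + w) ≤ k v + k w :=
    fun v w => gauge_add_le K.convex (absorbent_nhds_zero (body_nhds hK)) v w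
  have kz : k 0 = 0 := gauge_zero
  have kpos : ∀ v, v ≠ 0 → 0 < k v := fun v hv => body_gauge_pos hK hv
  have hG : GlueData k F G := ⟨kc, khom, kz, kpos, kadd, r1, r2, r3, r4, r5, r6⟩
  obtain ⟨L, hL, hL0⟩ := hG.exists_body
  have hKmem : ∀ v, v ∈ (K : Set E2) ↔ k v ≤ 1 := fun v => (body_gauge_le_one hK v).symm
  have elhom : ∀ (t : ℝ) (v : E2), 0 < t → ell k F G (t • v) = t * ell k F G v :=
    fun t v ht => hG.ell_hom t v ht
  have elpos : ∀ v, v ≠ 0 → 0 < ell k F G v := fun v hv => hG.ell_pos hv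
  have elz : ell k F G 0 = 0 := hG.ell_at_zero
  -- if the sets agree then the functions agree
  have agree : ∀ (r₁ r₂ : E2 → ℝ), (∀ (t : ℝ) (v : E2), 0 < t → r₁ (t • v) = t * r₁ v) →
      (∀ (t : ℝ) (v : E2), 0 < t → r₂ (t • v) = t * r₂ v) → (∀ v, r₁ v ≤ 1 → r₂ v ≤ 1) →
      ∀ v, 0 < r₁ v → r₂ v ≤ r₁ v := by
    intro r₁ r₂ h₁ h₂ h12 v hv
    have := h12 ((r₁ v)⁻¹ • v) (by rw [h₁ _ _ (inv_pos.2 hv), inv_mul_cancel₀ hv.ne'])
    rw [h₂ _ _ (inv_pos.2 hv), inv_mul_le_iff₀ hv, mul_one] at this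
    exact this
  refine ⟨L, hL0, ?_, ?_, ?_⟩
  · -- `L ≠ K` by looking at the direction `(0, 1)`
    intro heq
    have hne : pt 0 1 ≠ 0 := pt_ne_zero (by norm_num)
    have hkk : ∀ v, k v ≤ 1 → ell k F G v ≤ 1 := by
      intro v hv
      rw [← hL, heq, hKmem]; exact hv
    have h1 := agree k (ell k F G) khom elhom hkk (pt 0 1) (kpos _ hne)
    have h2 : ell k F G (pt 0 1) = F 0 := by
      rw [ell_pos_eq (by simp)]; simp
    have h3 := n1.f_le (x := 0) (by norm_num) (by norm_num)
    have h4 := n1.g_ge6 (x := 0) (by norm_num) (by norm_num)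
    rw [h2, r7] at h1
    have h5 := h4.trans (h1.trans h3)
    norm_num at h5
  · -- `L ≠ -K` by looking at the direction `(8, 1)`
    intro heq
    have hne : pt 8 1 ≠ 0 := pt_ne_zero (by norm_num)
    have hkk : ∀ v, ell k F G v ≤ 1 → (fun w => k (-w)) v ≤ 1 := by
      intro v hv
      have : v ∈ -(K : Set E2) := by rw [← heq, hL]; exact hv
      exact (hKmem _).1 this
    have khom' : ∀ (t : ℝ) (v : E2), 0 < t → (fun w => k (-w)) (t • v) = t * (fun w => k (-w)) v := by
      intro t v ht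
      show k (-(t • v)) = t * k (-v)
      rw [← smul_neg, khom t _ ht]
    have h1 := agree (ell k F G) (fun w => k (-w)) elhom khom' hkk (pt 8 1) (elpos _ hne)
    have h2 : ell k F G (pt 8 1) = F 8 := by
      rw [ell_pos_eq (by simp)]; simp
    have h3 := n1.f_le (x := 8) (by norm_num) (by norm_num)
    have h4 := n1.g_ge5 (x := 8) (by norm_num) (by norm_num)
    rw [h2, (r6 8 (by norm_num)).1] at h1
    simp only [neg_pt] at h3 h4 h1
    linarith
  · intro S hS
    obtain ⟨⟨v, hvS⟩, hv0, hv1⟩ := finrank_eq_one_iff'.1 hS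
    have hv : v ≠ 0 := fun h => hv0 (by ext; simp [h])
    have hspan : ∀ w, w ∈ S ↔ ∃ c : ℝ, c • v = w := by
      intro w
      constructor
      · intro hw
        obtain ⟨c, hc⟩ := hv1 ⟨w, hw⟩
        exact ⟨c, by simpa using congrArg Subtype.val hc⟩
      · rintro ⟨c, rfl⟩
        exact S.smul_mem c hvS
    rw [section_measure elhom elpos elz hL hv hspan,
      section_measure khom kpos kz hKmem hv hspan, hG.ell_sum v]

end near

/-- The set of undetermined planar bodies is not meagre. -/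
theorem not_meagre : ¬ IsMeagre {K : {K : ConvexBody E2 // (0 : E2) ∈ interior (K : Set E2)} |
    ∃ L : ConvexBody E2, (0 : E2) ∈ interior (L : Set E2) ∧ (L : Set E2) ≠ (K.1 : Set E2) ∧
      (L : Set E2) ≠ -(K.1 : Set E2) ∧
      ∀ S : Submodule ℝ E2, Module.finrank ℝ S = 1 →
        Measure.hausdorffMeasure (1 : ℝ) ((L : Set E2) ∩ (S : Set E2)) =
          Measure.hausdorffMeasure (1 : ℝ) ((K.1 : Set E2) ∩ (S : Set E2))} := by
  refine not_isMeagre_of_nhds (⟨K0, K0_interior⟩ : {K : ConvexBody E2 //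
    (0 : E2) ∈ interior (K : Set E2)}) ?_
  refine mem_of_superset (ball_mem_nhds _ (show (0 : ℝ) < 1 / 100000 * (1 / 20) by norm_num))
    fun K hK => ?_
  exact main_construction K.2 hK

end Pool.Agent.Lib.MP_0b6b0e_gt
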